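import Mathlib
import Pool.Agent.L0h67.LS.Cmd
import Pool.Agent.Y527.LA.OneWay
import Pool.Agent.TH588.LQ.Sav

/-!
A program which runs a two-way deterministic automaton on a segment of the tape.
-/

set_option autoImplicit false

namespace Pool.Agent.L0h67.LS

open Relation Cmd
open Pool.Agent.H630R2.LA (LimAut Sym fz Fr Cfg Step init initTape)
open Pool.Agent.Y527.LA (NeverRewrites OneWay)
open Pool.Agent.TH588.LQ (itr exists_short)

section twoWay

variable {A : Type} {strict : Prop} {N : LimAut A}

/-- The language of an automaton that never rewrites. -/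
theorem mem_language_never (hN : NeverRewrites N) (w : List A) :
    w ∈ N.language strict ↔ ∃ f ∈ N.F,
      ReflTransGen (Fr strict N (initTape N w) (w.length + 1)) (N.q0, 1) (f, w.length + 2) := by
  constructor
  · rintro ⟨c, hc, hp, hf⟩
    have key : c.tape = initTape N w ∧
        ReflTransGen (Fr strict N (initTape N w) (w.length + 1)) (N.q0, 1) (c.state, c.pos) := by
      clear hp hf
      induction hc with
      | refl => exact ⟨rfl, ReflTransGen.refl⟩
      | tail _ hstep ih =>
        rename_i c c' _
        obtain ⟨ht, hr⟩ := ih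
        obtain ⟨hle, q, b, d, hδ, hstr, hst, ht1, ht2, hs', hr', hl⟩ := hstep
        have hrw : (c.tape c.pos).rewrite b = c.tape c.pos := hN _ _ _ hδ
        refine ⟨?_, hr.tail ?_⟩
        · by_cases hmem : c.pos ∈ c.seen
          · rw [ht1 hmem, ht]
          · rw [ht2 hmem, hrw, Function.update_eq_self, ht]
        · refine ⟨hle, d, ?_, hr', hl⟩
          rw [hst, ← ht]
          exact ⟨b, hδ, fun _ => hrw⟩
    exact ⟨c.state, hf, by rw [← hp]; exact key.2⟩
  · rintro ⟨f, hf, h⟩
    have key : ∀ c : N.Q × ℕ, ReflTransGen (Fr strict N (initTape N w) (w.length + 1))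
        (N.q0, 1) c → ∃ S : Set ℕ, ReflTransGen (Step strict w.length) (init N w)
          ⟨c.1, c.2, initTape N w, S⟩ := by
      intro c hc
      induction hc with
      | refl => exact ⟨∅, ReflTransGen.refl⟩
      | tail _ hstep ih =>
        rename_i c c' _
        obtain ⟨S, hS⟩ := ih
        obtain ⟨hle, d, ⟨b, hδ, hst⟩, h1, h2⟩ := hstep
        have hrw : (initTape N w c.2).rewrite b = initTape N w c.2 := hN _ _ _ hδ
        refine ⟨insert c.2 S, hS.tail ⟨hle, c'.1, b, d, hδ, fun _ _ => hrw, rfl, fun _ => rfl,
          fun _ => ?_, rfl, h1, h2⟩⟩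
        show initTape N w = Function.update (initTape N w) c.2 ((initTape N w c.2).rewrite b)
        rw [hrw, Function.update_eq_self]
    obtain ⟨S, hS⟩ := key _ h
    exact ⟨_, hS, rfl, hf⟩

theorem itr_map {V V' : Type} {r : V → V → Prop} {r' : V' → V' → Prop} (g : V → V')
    (hg : ∀ u v, r u v → r' (g u) (g v)) (m : ℕ) : ∀ u v, itr r m u v → itr r' m (g u) (g v) := by
  induction m with
  | zero =>
    intro u v h
    have h' : u = v := h
    subst h'
    rfl
  | succ m ih =>
    rintro u v ⟨c, h1, h2⟩
    exact ⟨g c, hg _ _ h1, ih _ _ h2⟩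

theorem reflTransGen_of_itr {V : Type} {r : V → V → Prop} (m : ℕ) : ∀ u v, itr r m u v →
    ReflTransGen r u v := by
  induction m with
  | zero =>
    intro u v h
    have h' : u = v := h
    subst h'
    exact ReflTransGen.refl
  | succ m ih =>
    rintro u v ⟨c, h1, h2⟩
    exact (ih _ _ h2).head h1

/-- Accepting runs can be shortened. -/
theorem short_run {τ : ℕ → Sym N.W} {n : ℕ} {p f : N.Q}
    (h : ReflTransGen (Fr strict N τ (n + 1)) (p, 1) (f, n + 2)) :
    ∃ m ≤ Nat.card N.Q * (n + 3), itr (Fr strict N τ (n + 1)) m (p, 1) (f, n + 2) := by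
  have := N.finQ
  let R : N.Q × Fin (n + 3) → N.Q × Fin (n + 3) → Prop := fun u v =>
    Fr strict N τ (n + 1) (u.1, u.2.val) (v.1, v.2.val)
  have key : ∀ c : N.Q × ℕ, ReflTransGen (Fr strict N τ (n + 1)) (p, 1) c →
      ∃ hc : c.2 < n + 3, ReflTransGen R (p, ⟨1, by omega⟩) (c.1, ⟨c.2, hc⟩) := by
    intro c hc
    induction hc with
    | refl => exact ⟨by simp, ReflTransGen.refl⟩
    | tail _ hstep ih =>
      rename_i c c' _
      obtain ⟨hc, hr⟩ := ih
      have h1 := hstep.1
      have h2 : c'.2 < n + 3 := by
        obtain ⟨_, d, _, h3, h4⟩ := hstep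
        cases d
        · have := h4 rfl; omega
        · have := h3 rfl; omega
      exact ⟨h2, hr.tail hstep⟩
  obtain ⟨hf, hr⟩ := key _ h
  obtain ⟨m, hm, hi⟩ := exists_short hr
  refine ⟨m, ?_, ?_⟩
  · rw [Nat.card_prod] at hm
    simpa using hm
  · exact itr_map (fun u : N.Q × Fin (n + 3) => (u.1, u.2.val)) (fun _ _ h => h) m _ _ hi

end twoWay

section sim

variable {S A : Type} (strict : Prop) (N : LimAut A) (ltr : S → Option A) (n T : ℕ)

/-- The states: a state, a position and a clock, or a result and a position. -/
def SimSt : Type := (N.Q × Fin (n + 2) × Fin (T + 1)) ⊕ (Bool × Fin (n + 2))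

theorem finite_SimSt : Finite (SimSt N n T) := by
  have := N.finQ
  unfold SimSt
  infer_instance

theorem card_SimSt : Nat.card (SimSt N n T) =
    Nat.card N.Q * ((n + 2) * (T + 1)) + 2 * (n + 2) := by
  have := N.finQ
  unfold SimSt
  rw [Nat.card_sum, Nat.card_prod, Nat.card_prod, Nat.card_prod]
  simp

/-- Reduction modulo `m + 1`. -/
def cf (m k : ℕ) : Fin (m + 1) := ⟨k % (m + 1), Nat.mod_lt _ (Nat.succ_pos m)⟩

theorem cf_val {m k : ℕ} (h : k ≤ m) : (cf m k).val = k := Nat.mod_eq_of_lt (by omega)

/-- The place of the head: the right end-marker is simulated one cell left of the last cell. -/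
def phi (i : ℕ) : ℕ := if i = n + 1 then n - 1 else i

/-- The simulated symbol. -/
def vs (i : ℕ) (σ : S) : Option (Sym N.W) :=
  if i = 0 then some .lm else if i = n + 1 then some .rm else
    (ltr σ).map (fun a => Sym.sym (N.inp a))

/-- A simulated move. -/
def mv (q : N.Q) (i : ℕ) (σ : S) (z : N.Q × Bool) : Prop :=
  ∃ v, vs N ltr n i σ = some v ∧ fz strict N q v z.1 z.2

variable {N n T}

/-- Go to the first cell and stop with the result `b`; the head is `j - 1` cells right of it. -/
def fin (b : Bool) (j : ℕ) : (SimSt N n T ⊕ Bool) × Bool :=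
  if j = 0 then (Sum.inr b, true) else if j = 1 then (Sum.inl (Sum.inr (b, cf (n + 1) 0)), false)
  else if j = 2 then (Sum.inr b, false) else (Sum.inl (Sum.inr (b, cf (n + 1) (j - 1))), false)

variable (N n T)

open Classical in
/-- The moves of the simulation. -/
noncomputable def simStep (s : SimSt N n T) (σ : S) : (SimSt N n T ⊕ Bool) × Bool :=
  match s with
  | Sum.inr (b, j) => fin b j.val
  | Sum.inl (q, i, t) =>
    if t.val = 0 then fin false (phi n i.val) else
    if h : ∃ z, mv strict N ltr n q i.val σ z then
      if (Classical.choose h).2 = true then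
        if i.val = n + 1 then fin (decide ((Classical.choose h).1 ∈ N.F)) (phi n i.val)
        else (Sum.inl (Sum.inl ((Classical.choose h).1, cf (n + 1) (i.val + 1),
          cf T (t.val - 1))), decide (i.val + 1 ≠ n + 1))
      else
        if i.val = 0 then fin false (phi n i.val)
        else (Sum.inl (Sum.inl ((Classical.choose h).1, cf (n + 1) (i.val - 1),
          cf T (t.val - 1))), decide (i.val = n + 1))
    else fin false (phi n i.val)

/-- The program. -/
noncomputable def simC : Cmd S :=
  .sub (SimSt N n T) (finite_SimSt N n T) (Sum.inl (N.q0, cf (n + 1) 1, cf T T))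
    (fun s σ => (simStep strict N ltr n T s σ).1) (fun s σ => (simStep strict N ltr n T s σ).2)

theorem cnt_simC : (simC strict N ltr n T).cnt =
    Nat.card N.Q * ((n + 2) * (T + 1)) + 2 * (n + 2) := card_SimSt N n T

variable {N n T strict ltr}

/-- One step of the subroutine. -/
theorem subStep_mk {τ : ℕ → S} {hi p p' : ℕ} {s : SimSt N n T} {r : SimSt N n T ⊕ Bool} {d : Bool}
    (h : simStep strict N ltr n T s (τ p) = (r, d)) (hp : p ≤ hi)
    (h1 : d = true → p' = p + 1) (h2 : d = false → p' + 1 = p) :
    SubStep τ hi (fun s σ => (simStep strict N ltr n T s σ).1)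
      (fun s σ => (simStep strict N ltr n T s σ).2) (Sum.inl s, p) (r, p') := by
  refine ⟨s, rfl, hp, ?_, ?_, ?_⟩
  · show r = (simStep strict N ltr n T s (τ p)).1
    rw [h]
  · show (simStep strict N ltr n T s (τ p)).2 = true → p' = p + 1
    rw [h]; exact h1
  · show (simStep strict N ltr n T s (τ p)).2 = false → p' + 1 = p
    rw [h]; exact h2

theorem fin_run {τ : ℕ → S} {hi x : ℕ} {b : Bool} (hx : 1 ≤ x) (hn : x + n ≤ hi + 1) (j : ℕ) :
    ∀ (s : SimSt N n T) (p : ℕ), j ≤ n → p + 1 = x + j →
    simStep strict N ltr n T s (τ p) = fin b j →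
    ReflTransGen (SubStep τ hi (fun s σ => (simStep strict N ltr n T s σ).1)
      (fun s σ => (simStep strict N ltr n T s σ).2)) (Sum.inl s, p) (Sum.inr b, x) := by
  induction j using Nat.strong_induction_on with
  | _ j ih =>
    intro s p hj hp hs
    have hret : ∀ j' : ℕ, j' ≤ n → ∀ σ : S,
        simStep strict N ltr n T (Sum.inr (b, cf (n + 1) j')) σ = fin b j' := by
      intro j' hj' σ
      show fin b (cf (n + 1) j').val = fin b j'
      rw [cf_val (by omega)]
    rcases Nat.lt_or_ge j 3 with h3 | h3
    · interval_cases j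
      · have h : simStep strict N ltr n T s (τ p) = (Sum.inr b, true) := by rw [hs]; rfl
        exact ReflTransGen.single (subStep_mk h (by omega) (fun _ => by omega)
          (fun h => absurd h (by simp)))
      · have h : simStep strict N ltr n T s (τ p) =
            (Sum.inl (Sum.inr (b, cf (n + 1) 0)), false) := by rw [hs]; rfl
        refine ReflTransGen.head (b := (Sum.inl (Sum.inr (b, cf (n + 1) 0)), x - 1))
          (subStep_mk h (by omega) (fun h => absurd h (by simp)) (fun _ => by omega)) ?_
        exact ih 0 (by omega) _ _ (by omega) (by omega) (hret 0 (by omega) _)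
      · have h : simStep strict N ltr n T s (τ p) = (Sum.inr b, false) := by rw [hs]; rfl
        exact ReflTransGen.single (subStep_mk h (by omega) (fun h => absurd h (by simp))
          (fun _ => by omega))
    · have h : simStep strict N ltr n T s (τ p) =
          (Sum.inl (Sum.inr (b, cf (n + 1) (j - 1))), false) := by
        rw [hs]
        unfold fin
        rw [if_neg (by omega), if_neg (by omega), if_neg (by omega)]
        rfl
      refine ReflTransGen.head (b := (Sum.inl (Sum.inr (b, cf (n + 1) (j - 1))), p - 1))
        (subStep_mk h (by omega) (fun h => absurd h (by simp)) (fun _ => by omega)) ?_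
      exact ih (j - 1) (by omega) _ _ (by omega) (by omega) (hret (j - 1) (by omega) _)

theorem fz_unique (hd : N.Deterministic) {q : N.Q} {v : Sym N.W} {z z' : N.Q × Bool}
    (h : fz strict N q v z.1 z.2) (h' : fz strict N q v z'.1 z'.2) : z = z' := by
  obtain ⟨b, h1, _⟩ := h
  obtain ⟨b', h2, _⟩ := h'
  have := hd _ _ h1 h2
  simp only [Prod.mk.injEq] at this
  exact Prod.ext this.1 this.2.2

theorem vs_eq {w : List A} {τ : ℕ → S} {x i : ℕ} (hw : w.length = n)
    (hlet : ∀ (i : ℕ) (h : i < n), ltr (τ (x + i)) = some (w[i]'(by omega))) (hx : 1 ≤ x)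
    (hi : i ≤ n + 1) : vs N ltr n i (τ (x - 1 + phi n i)) = some (initTape N w i) := by
  unfold vs
  by_cases h0 : i = 0
  · rw [if_pos h0, h0]; rfl
  · rw [if_neg h0]
    by_cases h1 : i = n + 1
    · rw [if_pos h1, h1, ← hw]
      simp only [initTape, List.getElem?_eq_none (le_refl w.length)]
    · rw [if_neg h1]
      unfold phi
      rw [if_neg h1]
      have h2 : x - 1 + i = x + (i - 1) := by omega
      rw [h2, hlet (i - 1) (by omega)]
      obtain ⟨k, rfl⟩ : ∃ k, i = k + 1 := ⟨i - 1, by omega⟩
      simp only [initTape, List.getElem?_eq_getElem (show k < w.length by omega), Option.map_some,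
        Nat.add_sub_cancel]

open Classical in
theorem sim_run (hd : N.Deterministic) {w : List A} {τ : ℕ → S} {x hi : ℕ} (hw : w.length = n)
    (hn : 1 ≤ n) (hx : 1 ≤ x) (hxn : x + n ≤ hi + 1)
    (hlet : ∀ (i : ℕ) (h : i < n), ltr (τ (x + i)) = some (w[i]'(by omega))) (t : ℕ) (ht : t ≤ T) :
    ∀ (q : N.Q) (i : ℕ), i ≤ n + 1 → ∃ b,
      ReflTransGen (SubStep τ hi (fun s σ => (simStep strict N ltr n T s σ).1)
        (fun s σ => (simStep strict N ltr n T s σ).2))
        (Sum.inl (Sum.inl (q, cf (n + 1) i, cf T t)), x - 1 + phi n i) (Sum.inr b, x) ∧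
      (b = true ↔ ∃ m ≤ t, ∃ f ∈ N.F,
        itr (Fr strict N (initTape N w) (n + 1)) m (q, i) (f, n + 2)) := by
  have hphi : ∀ i, i ≤ n + 1 → phi n i ≤ n := by
    intro i hi
    unfold phi
    split_ifs <;> omega
  induction t with
  | zero =>
    intro q i hi'
    refine ⟨false, fin_run hx hxn (phi n i) _ _ (hphi i hi') (by omega) ?_, ?_⟩
    · simp only [simStep]
      rw [if_pos (cf_val (Nat.zero_le T)), cf_val hi']
    · simp only [Bool.false_eq_true, false_iff]
      rintro ⟨m, hm, f, _, h⟩
      have hm0 : m = 0 := by omega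
      subst hm0
      have h' : (q, i) = (f, n + 2) := h
      simp only [Prod.mk.injEq] at h'
      omega
  | succ t ih =>
    intro q i hi'
    have hT : (cf T (t + 1)).val = t + 1 := cf_val ht
    have hI : (cf (n + 1) i).val = i := cf_val hi'
    have hv := vs_eq (N := N) hw hlet hx hi'
    set σ := τ (x - 1 + phi n i) with hσ
    have hne : i ≠ n + 2 := by omega
    -- the structure of runs
    have hruns : ∀ m f, itr (Fr strict N (initTape N w) (n + 1)) m (q, i) (f, n + 2) →
        ∃ m' z, m = m' + 1 ∧ fz strict N q (initTape N w i) (Prod.fst z) (Prod.snd z) ∧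
          ∃ p', (z.2 = true → p' = i + 1) ∧ (z.2 = false → p' + 1 = i) ∧
          itr (Fr strict N (initTape N w) (n + 1)) m' (z.1, p') (f, n + 2) := by
      intro m f h
      cases m with
      | zero =>
        have h' : (q, i) = (f, n + 2) := h
        simp only [Prod.mk.injEq] at h'
        exact absurd h'.2 hne
      | succ m' =>
        obtain ⟨c, ⟨_, d, h1, h2, h3⟩, h4⟩ := h
        exact ⟨m', (c.1, d), rfl, h1, c.2, h2, h3, h4⟩
    have hunf : ∀ s', s' = (Sum.inl (q, cf (n + 1) i, cf T (t + 1)) : SimSt N n T) →
        simStep strict N ltr n T s' σ =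
        (if (t + 1) = 0 then fin false (phi n i) else
          if h : ∃ z, mv strict N ltr n q i σ z then
            if (Classical.choose h).2 = true then
              if i = n + 1 then fin (decide ((Classical.choose h).1 ∈ N.F)) (phi n i)
              else (Sum.inl (Sum.inl ((Classical.choose h).1, cf (n + 1) (i + 1),
                cf T (t + 1 - 1))), decide (i + 1 ≠ n + 1))
            else
              if i = 0 then fin false (phi n i)
              else (Sum.inl (Sum.inl ((Classical.choose h).1, cf (n + 1) (i - 1),
                cf T (t + 1 - 1))), decide (i = n + 1))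
          else fin false (phi n i)) := by
      rintro s' rfl
      simp only [simStep, hT, hI]
    have hunf' := hunf _ rfl
    rw [if_neg (Nat.succ_ne_zero t)] at hunf'
    have hpi := hphi i hi'
    by_cases hex : ∃ z, mv strict N ltr n q i σ z
    · rw [dif_pos hex] at hunf'
      obtain ⟨v, hv1, hv2⟩ := Classical.choose_spec hex
      generalize Classical.choose hex = z at *
      rw [hv] at hv1
      have hv3 : initTape N w i = v := Option.some.inj hv1
      rw [← hv3] at hv2
      obtain ⟨q', d⟩ := z
      cases d with
      | true =>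
        rw [if_pos rfl] at hunf'
        by_cases hin : i = n + 1
        · rw [if_pos hin] at hunf'
          refine ⟨_, fin_run hx hxn (phi n i) _ _ hpi (by omega) hunf', ?_⟩
          rw [decide_eq_true_iff]
          constructor
          · intro hf
            refine ⟨1, by omega, q', hf, (q', n + 2), ⟨by omega, true, hv2, ?_, ?_⟩, rfl⟩
            · intro _; simp only; omega
            · intro h; exact absurd h (by simp)
          · rintro ⟨m, hm, f, hf, h⟩
            obtain ⟨m', z, rfl, h1, p', h2, h3, h4⟩ := hruns m f h
            have h5 := fz_unique hd (z := z) (z' := (q', true)) h1 hv2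
            subst h5
            have h6 := h2 rfl
            cases m' with
            | zero =>
              have h4' : (q', p') = (f, n + 2) := h4
              simp only [Prod.mk.injEq] at h4'
              rw [h4'.1]; exact hf
            | succ m' =>
              obtain ⟨c, ⟨h7, _⟩, _⟩ := h4
              simp only at h7
              omega
        · rw [if_neg hin] at hunf'
          obtain ⟨b, hb1, hb2⟩ := ih (by omega) q' (i + 1) (by omega)
          refine ⟨b, ReflTransGen.head (subStep_mk (p' := x - 1 + phi n (i + 1)) hunf' (by omega)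
            ?_ ?_) hb1, ?_⟩
          · intro h
            have h' : i + 1 ≠ n + 1 := of_decide_eq_true h
            unfold phi
            rw [if_neg h', if_neg hin]
            omega
          · intro h
            have h' : ¬ (i + 1 ≠ n + 1) := of_decide_eq_false h
            have h'' : i + 1 = n + 1 := by omega
            unfold phi
            rw [if_pos h'', if_neg hin]
            omega
          · rw [hb2]
            constructor
            · rintro ⟨m, hm, f, hf, h⟩
              exact ⟨m + 1, by omega, f, hf, (q', i + 1), ⟨by show i ≤ n + 1; omega, true, hv2,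
                fun _ => rfl, fun h => absurd h (by simp)⟩, h⟩
            · rintro ⟨m, hm, f, hf, h⟩
              obtain ⟨m', z, rfl, h1, p', h2, h3, h4⟩ := hruns m f h
              have h5 := fz_unique hd (z := z) (z' := (q', true)) h1 hv2
              subst h5
              have h6 := h2 rfl
              subst h6
              exact ⟨m', by omega, f, hf, h4⟩
      | false =>
        rw [if_neg (by simp)] at hunf'
        by_cases hi0 : i = 0
        · rw [if_pos hi0] at hunf'
          refine ⟨_, fin_run hx hxn (phi n i) _ _ hpi (by omega) hunf', ?_⟩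
          simp only [Bool.false_eq_true, false_iff]
          rintro ⟨m, hm, f, hf, h⟩
          obtain ⟨m', z, rfl, h1, p', h2, h3, h4⟩ := hruns m f h
          have h5 := fz_unique hd (z := z) (z' := (q', false)) h1 hv2
          subst h5
          have h6 := h3 rfl
          omega
        · rw [if_neg hi0] at hunf'
          obtain ⟨b, hb1, hb2⟩ := ih (by omega) q' (i - 1) (by omega)
          refine ⟨b, ReflTransGen.head (subStep_mk (p' := x - 1 + phi n (i - 1)) hunf' (by omega)
            ?_ ?_) hb1, ?_⟩
          · intro h
            have h' : i = n + 1 := of_decide_eq_true h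
            unfold phi
            rw [if_pos h', if_neg (by omega)]
            omega
          · intro h
            have h' : i ≠ n + 1 := of_decide_eq_false h
            unfold phi
            rw [if_neg h', if_neg (by omega)]
            omega
          · rw [hb2]
            constructor
            · rintro ⟨m, hm, f, hf, h⟩
              exact ⟨m + 1, by omega, f, hf, (q', i - 1), ⟨by show i ≤ n + 1; omega, false, hv2,
                fun h => absurd h (by simp), fun _ => by show i - 1 + 1 = i; omega⟩, h⟩
            · rintro ⟨m, hm, f, hf, h⟩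
              obtain ⟨m', z, rfl, h1, p', h2, h3, h4⟩ := hruns m f h
              have h5 := fz_unique hd (z := z) (z' := (q', false)) h1 hv2
              subst h5
              have h6 := h3 rfl
              have h7 : p' = i - 1 := by omega
              subst h7
              exact ⟨m', by omega, f, hf, h4⟩
    · rw [dif_neg hex] at hunf'
      refine ⟨_, fin_run hx hxn (phi n i) _ _ hpi (by omega) hunf', ?_⟩
      simp only [Bool.false_eq_true, false_iff]
      rintro ⟨m, hm, f, hf, h⟩
      obtain ⟨m', z, rfl, h1, _⟩ := hruns m f h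
      exact hex ⟨z, _, hv, h1⟩

/-- The program decides acceptance of the word in the cells `x, ..., x + n - 1`. -/
theorem decides_simC (hd : N.Deterministic) (hN : NeverRewrites N) {w : List A} {τ : ℕ → S}
    {x hi : ℕ} (hw : w.length = n) (hn : 1 ≤ n) (hx : 1 ≤ x) (hxn : x + n ≤ hi + 1)
    (hT : Nat.card N.Q * (n + 3) ≤ T)
    (hlet : ∀ (i : ℕ) (h : i < n), ltr (τ (x + i)) = some (w[i]'(by omega))) :
    Decides τ hi (simC strict N ltr n T) x x (w ∈ N.language strict) := by
  obtain ⟨b, hb1, hb2⟩ := sim_run (T := T) (strict := strict) hd hw hn hx hxn hlet T le_rfl N.q0 1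
    (by omega)
  refine ⟨b, Run.sub _ _ _ _ _ _ _ _ ?_, ?_⟩
  · have h : x - 1 + phi n 1 = x := by
      unfold phi
      rw [if_neg (by omega)]
      omega
    rw [h] at hb1
    exact hb1
  · rw [hb2, mem_language_never hN, hw]
    constructor
    · rintro ⟨m, _, f, hf, h⟩
      exact ⟨f, hf, reflTransGen_of_itr m _ _ h⟩
    · rintro ⟨f, hf, h⟩
      obtain ⟨m, hm, h'⟩ := short_run h
      exact ⟨m, hm.trans hT, f, hf, h'⟩

end sim

end Pool.Agent.L0h67.LS
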