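import Mathlib
import Pool.Agent.L0h67.LS.Sim
import Pool.Agent.H630R2.LA.Machine

/-!
One-way nondeterministic automata, the cost of simulating them by two-way deterministic automata on
short inputs, and programs which decide reachability in a block.
-/

set_option autoImplicit false

namespace Pool.Agent.L0h67.LS

open Relation Cmd
open Pool.Agent.H630R2.LA (LimAut Sym fz Fr Cfg Step init initTape WS path lrel bitS)
open Pool.Agent.Y527.LA (NeverRewrites OneWay)

/-- Every one-way nondeterministic automaton with at most `N` states over an alphabet with at most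
`N` letters has a two-way deterministic automaton with at most `S` states which agrees with it on
the inputs of length at most `N`. -/
def Short (strict : Prop) (N S : ℕ) : Prop :=
  ∀ (A : Type) (_ : Finite A) (M : LimAut A), OneWay M → NeverRewrites M → Nat.card A ≤ N →
    Nat.card M.Q ≤ N → ∃ M' : LimAut A, M'.Deterministic ∧ NeverRewrites M' ∧ Nat.card M'.Q ≤ S ∧
      ∀ w : List A, w.length ≤ N → (w ∈ M'.language strict ↔ w ∈ M.language strict)

section nfa

variable {A : Type} {B : ℕ} (rel : A → Fin B → Fin B → Bool) (m : Fin B) (acc : Fin B → Bool)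

/-- Reading the word `u` from the state `p` to the state `q`. -/
def lp : List A → Fin B → Fin B → Prop
  | [], p, q => p = q
  | a :: u, p, q => ∃ r, rel a p r = true ∧ lp u r q

/-- The moves of the one-way automaton. -/
inductive NT : Option (Fin B) → Sym (Option A) → Option (Fin B) → Option A → Bool → Prop
  | go (p : Fin B) (a : A) (q : Fin B) (h : rel a p q = true) :
      NT (some p) (.sym (some a)) (some q) (some a) true
  | fin (p : Fin B) (h : acc p = true) : NT (some p) .rm none none true

/-- The one-way automaton with the initial state `m` and the accepting states `acc`. -/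
def nfa [Finite A] : LimAut A where
  Q := Option (Fin B)
  W := Option A
  finQ := inferInstance
  finW := inferInstance
  inp := some
  inp_inj := fun _ _ h => Option.some.inj h
  δ := fun q σ => {z | NT rel acc q σ z.1 z.2.1 z.2.2}
  q0 := some m
  F := {none}

variable [Finite A]

theorem nfa_oneWay : OneWay (nfa rel m acc) := by
  intro q σ x hx
  have hx' : NT rel acc q σ x.1 x.2.1 x.2.2 := hx
  generalize x.1 = x1 at hx'
  generalize x.2.1 = x2 at hx'
  generalize x.2.2 = x3 at hx'
  cases hx' <;> rfl

theorem nfa_never : NeverRewrites (nfa rel m acc) := by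
  intro q σ x hx
  have hx' : NT rel acc q σ x.1 x.2.1 x.2.2 := hx
  show Sym.rewrite σ x.2.1 = σ
  generalize x.1 = x1 at hx'
  generalize x.2.1 = x2 at hx' ⊢
  generalize x.2.2 = x3 at hx'
  cases hx' <;> rfl

theorem nfa_card : Nat.card (nfa rel m acc).Q = B + 1 := by
  show Nat.card (Option (Fin B)) = _
  rw [Finite.card_option]
  simp

variable {rel m acc}

/-- A run of the one-way automaton on the rest `u` of the input `w`. -/
theorem nfa_run {strict : Prop} (w : List A) (u : List A) : ∀ (v : List A) (p : Fin B),
    w = v ++ u →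
    (ReflTransGen (Fr strict (nfa rel m acc) (initTape (nfa rel m acc) w) (w.length + 1))
      (some p, v.length + 1) (none, w.length + 2) ↔ ∃ q, acc q = true ∧ lp rel u p q) := by
  induction u with
  | nil =>
    intro v p hw
    rw [List.append_nil] at hw
    subst hw
    have hlast : initTape (nfa rel m acc) w (w.length + 1) = .rm := by
      simp only [initTape, List.getElem?_eq_none (le_refl w.length)]
    constructor
    · intro h
      rcases ReflTransGen.cases_head h with h1 | ⟨c, ⟨_, d, ⟨b, h1, _⟩, h2, h3⟩, h4⟩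
      · have h1' : w.length + 1 = w.length + 2 := congrArg Prod.snd h1
        omega
      · rw [hlast] at h1
        have h1' : NT rel acc (some p) .rm c.1 b d := h1
        generalize hc : c.1 = c1 at h1'
        cases h1' with
        | fin _ hp => exact ⟨p, hp, rfl⟩
    · rintro ⟨q, hq, h⟩
      have h' : p = q := h
      subst h'
      refine ReflTransGen.single ⟨le_rfl, true, ⟨none, ?_, fun _ => ?_⟩, fun _ => rfl,
        fun h => absurd h (by simp)⟩
      · show (none, none, true) ∈ (nfa rel m acc).δ (some p)
          (initTape (nfa rel m acc) w (w.length + 1))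
        rw [hlast]
        exact NT.fin p hq
      · show (initTape (nfa rel m acc) w (w.length + 1)).rewrite _ = _
        rw [hlast]; rfl
  | cons a u ih =>
    intro v p hw
    have hlen : w.length = v.length + (u.length + 1) := by
      rw [hw, List.length_append, List.length_cons]
    have hcell : initTape (nfa rel m acc) w (v.length + 1) = .sym (some a) := by
      have : w[v.length]? = some a := by
        rw [hw, List.getElem?_append_right le_rfl]
        simp
      simp only [initTape, this]
      rfl
    have ih' := fun q => ih (v ++ [a]) q (by rw [hw]; simp)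
    have hl : (v ++ [a]).length + 1 = v.length + 1 + 1 := by simp
    constructor
    · intro h
      rcases ReflTransGen.cases_head h with h1 | ⟨c, ⟨_, d, ⟨b, h1, _⟩, h2, h3⟩, h4⟩
      · have h1' : v.length + 1 = w.length + 2 := congrArg Prod.snd h1
        omega
      · rw [hcell] at h1
        have h1' : NT rel acc (some p) (.sym (some a)) c.1 b d := h1
        obtain ⟨q, hq, hc, hd⟩ : ∃ q, rel a p q = true ∧ c.1 = some q ∧ d = true := by
          generalize hc : c.1 = c1 at h1'
          generalize hσ : (Sym.sym (some a) : Sym (Option A)) = σ at h1'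
          cases h1' with
          | go _ a' q hq =>
            cases hσ
            exact ⟨q, hq, rfl, rfl⟩
          | fin _ hp => exact absurd hσ (by simp)
        have h5 := h2 hd
        have hc' : c = (some q, (v ++ [a]).length + 1) := by
          rw [hl]
          exact Prod.ext hc h5
        rw [hc'] at h4
        obtain ⟨f, hf, hp⟩ := (ih' q).1 h4
        exact ⟨f, hf, q, hq, hp⟩
    · rintro ⟨f, hf, q, hq, hp⟩
      have h4 := (ih' q).2 ⟨f, hf, hp⟩
      refine h4.head ⟨?_, true, ⟨some a, ?_, fun _ => ?_⟩, fun _ => ?_,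
        fun h => absurd h (by simp)⟩
      · show v.length + 1 ≤ w.length + 1
        omega
      · show (some q, some a, true) ∈ (nfa rel m acc).δ (some p)
          (initTape (nfa rel m acc) w (v.length + 1))
        rw [hcell]
        exact NT.go p a q hq
      · show (initTape (nfa rel m acc) w (v.length + 1)).rewrite _ = _
        rw [hcell]; rfl
      · show (v ++ [a]).length + 1 = v.length + 1 + 1
        exact hl

theorem nfa_language {strict : Prop} (w : List A) :
    w ∈ (nfa rel m acc).language strict ↔ ∃ q, acc q = true ∧ lp rel w m q := by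
  rw [mem_language_never (nfa_never rel m acc)]
  have h := nfa_run (strict := strict) (rel := rel) (m := m) (acc := acc) w w [] m rfl
  rw [← h]
  constructor
  · rintro ⟨f, hf, h1⟩
    have hf' : f = none := hf
    subst hf'
    exact h1
  · intro h1
    exact ⟨none, rfl, h1⟩

end nfa

section path

variable {A : Type} {h : ℕ} {rel : A → Fin (2 ^ h) → Fin (2 ^ h) → Bool}

/-- Reading a block of the tape. -/
theorem path_iff_lp {τ : ℕ → Sym (WS A)} {q : Fin (2 ^ h)} (u : List A) : ∀ (x : ℕ)
    (p : Fin (2 ^ h)), (∀ (i : ℕ) (hi : i < u.length), ∃ b, τ (x + i) = .sym (.mark u[i] b)) →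
    (path (lrel h rel) τ x u.length p q ↔ lp rel u p q) := by
  induction u with
  | nil => intro x p _; rfl
  | cons a u ih =>
    intro x p hu
    obtain ⟨b, hb⟩ := hu 0 (by simp)
    have hb' : τ x = .sym (.mark a b) := hb
    simp only [List.length_cons, path, lp]
    have key : ∀ r, lrel h rel (τ x) p r = rel a p r := by
      intro r
      rw [hb']
      rfl
    constructor
    · rintro ⟨r, h1, h2⟩
      rw [key] at h1
      refine ⟨r, h1, (ih (x + 1) r ?_).1 h2⟩
      intro i hi
      obtain ⟨b', hb2⟩ := hu (i + 1) (by simpa using hi)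
      exact ⟨b', by rw [show x + 1 + i = x + (i + 1) by omega, hb2]; rfl⟩
    · rintro ⟨r, h1, h2⟩
      refine ⟨r, by rw [key]; exact h1, (ih (x + 1) r ?_).2 h2⟩
      intro i hi
      obtain ⟨b', hb2⟩ := hu (i + 1) (by simpa using hi)
      exact ⟨b', by rw [show x + 1 + i = x + (i + 1) by omega, hb2]; rfl⟩

/-- The letter of a visited cell. -/
def ltr (σ : Sym (WS A)) : Option A := match σ with
  | .sym (.mark a _) => some a
  | _ => none

end path

/-- Test the cell `m` cells to the right of the head, and return. -/
def chk {S : Type} (bit : S → Bool) (m : ℕ) : Cmd S := mvs true m (thenLeft (test bit) m)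

theorem cnt_chk {S : Type} (bit : S → Bool) (m : ℕ) : (chk bit m).cnt = 3 * m + 3 := by
  simp only [chk, cnt_mvs, cnt_thenLeft, cnt_test]; omega

theorem decides_chk {S : Type} {τ : ℕ → S} {hi x m : ℕ} (bit : S → Bool) (hx : 1 ≤ x)
    (hm : x + m ≤ hi) : Decides τ hi (chk bit m) x x (bit (τ (x + m)) = true) := by
  apply decides_mvs_right (by omega)
  apply decides_thenLeft _ hm
  exact decides_test bit (by omega) hm

section progs

variable {A : Type} [Finite A] {strict : Prop} {h S : ℕ}
  {rel : A → Fin (2 ^ h) → Fin (2 ^ h) → Bool}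

/-- For the relation `rel` on `Fin (2 ^ h)` we are given two-way deterministic automata with at
most `S` states that agree with the one-way automata on the words of length at most `2 ^ (h + 1)`.
-/
structure Sub (strict : Prop) (h S : ℕ) (rel : A → Fin (2 ^ h) → Fin (2 ^ h) → Bool) where
  aut : Fin (2 ^ h) → (Fin (2 ^ h) → Bool) → LimAut A
  det : ∀ m acc, (aut m acc).Deterministic
  never : ∀ m acc, NeverRewrites (aut m acc)
  card : ∀ m acc, Nat.card (aut m acc).Q ≤ S
  agree : ∀ m acc (w : List A), w.length ≤ 2 ^ (h + 1) →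
    (w ∈ (aut m acc).language strict ↔ ∃ q, acc q = true ∧ lp rel w m q)

theorem exists_sub (hS : Short strict (2 ^ (h + 1)) S) (hA : Nat.card A ≤ 2 ^ (h + 1))
    (rel : A → Fin (2 ^ h) → Fin (2 ^ h) → Bool) : Nonempty (Sub strict h S rel) := by
  have key : ∀ (m : Fin (2 ^ h)) (acc : Fin (2 ^ h) → Bool), ∃ M' : LimAut A,
      M'.Deterministic ∧ NeverRewrites M' ∧ Nat.card M'.Q ≤ S ∧
      ∀ w : List A, w.length ≤ 2 ^ (h + 1) →
        (w ∈ M'.language strict ↔ ∃ q, acc q = true ∧ lp rel w m q) := by
    intro m acc
    have hc : Nat.card (nfa rel m acc).Q ≤ 2 ^ (h + 1) := by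
      rw [nfa_card, pow_succ]
      have : 1 ≤ 2 ^ h := Nat.one_le_two_pow
      omega
    obtain ⟨M', h1, h2, h3, h4⟩ := hS A inferInstance (nfa rel m acc) (nfa_oneWay rel m acc)
      (nfa_never rel m acc) hA hc
    exact ⟨M', h1, h2, h3, fun w hw => (h4 w hw).trans (nfa_language w)⟩
  choose f h1 h2 h3 h4 using key
  exact ⟨⟨f, h1, h2, h3, h4⟩⟩

/-- The clock. -/
def clk (S h : ℕ) : ℕ := S * (2 ^ (h + 1) + 3)

open Classical in
/-- Is a state in `acc` reached from `m` by reading `n` cells? -/
noncomputable def reachS (D : Sub strict h S rel) (m : Fin (2 ^ h)) (acc : Fin (2 ^ h) → Bool)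
    (n : ℕ) : Cmd (Sym (WS A)) :=
  if n = 0 then ret (acc m) else simC strict (D.aut m acc) ltr n (clk S h)

omit [Finite A] in
theorem decides_reachS (D : Sub strict h S rel) {τ : ℕ → Sym (WS A)} {x hi n : ℕ}
    (m : Fin (2 ^ h)) (acc : Fin (2 ^ h) → Bool) (hn : n ≤ 2 ^ (h + 1)) (hx : 1 ≤ x)
    (hxn : x + n ≤ hi + 1) (hlet : ∀ i < n, ∃ a b, τ (x + i) = .sym (.mark a b)) :
    Decides τ hi (reachS D m acc n) x x (∃ q, acc q = true ∧ path (lrel h rel) τ x n m q) := by
  unfold reachS
  by_cases h0 : n = 0
  · rw [if_pos h0]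
    subst h0
    refine (decides_ret _ _ _ _).congr ?_
    constructor
    · intro h; exact ⟨m, h, rfl⟩
    · rintro ⟨q, h1, h2⟩
      have h2' : m = q := h2
      rw [h2']; exact h1
  · rw [if_neg h0]
    choose a b hab using hlet
    set w : List A := List.ofFn (fun i : Fin n => a i.val i.isLt) with hw
    have hwl : w.length = n := by rw [hw, List.length_ofFn]
    have hcell : ∀ (i : ℕ) (hi : i < w.length), ∃ b', τ (x + i) = .sym (.mark w[i] b') := by
      intro i hi
      refine ⟨b i (by omega), ?_⟩
      rw [hab i (by omega)]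
      simp [hw]
    refine (decides_simC (D.det m acc) (D.never m acc) hwl (by omega) hx hxn ?_ ?_).congr ?_
    · unfold clk
      exact Nat.mul_le_mul (D.card m acc) (by omega)
    · intro i hi
      obtain ⟨b', hb⟩ := hcell i (by omega)
      rw [hb]
      rfl
    · rw [D.agree m acc w (by omega)]
      have h1 := fun q => path_iff_lp (h := h) (rel := rel) (q := q) (τ := τ) w x m hcell
      simp only [hwl] at h1
      simp only [h1]

omit [Finite A] in
theorem cnt_reachS (D : Sub strict h S rel) (m : Fin (2 ^ h)) (acc : Fin (2 ^ h) → Bool) {n : ℕ}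
    (hn : n ≤ 2 ^ (h + 1)) : (reachS D m acc n).cnt ≤
      S * ((2 ^ (h + 1) + 2) * (clk S h + 1)) + 2 * (2 ^ (h + 1) + 2) := by
  unfold reachS
  by_cases h0 : n = 0
  · rw [if_pos h0]
    exact Nat.zero_le _
  · rw [if_neg h0, cnt_simC]
    have h1 := D.card m acc
    have h2 : (n + 2) * (clk S h + 1) ≤ (2 ^ (h + 1) + 2) * (clk S h + 1) :=
      Nat.mul_le_mul_right _ (by omega)
    have h3 := Nat.mul_le_mul h1 h2
    omega

/-- Is a state in `acc` reached from the set of states that is marked in the first `2 ^ h` cells,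
by reading `n` cells? -/
noncomputable def memS (D : Sub strict h S rel) (acc : Fin (2 ^ h) → Bool) (n : ℕ) :
    Cmd (Sym (WS A)) :=
  orL (List.finRange (2 ^ h)) (fun m => ite (chk bitS m.val) (reachS D m acc n) (ret false))

omit [Finite A] in
theorem decides_memS (D : Sub strict h S rel) {τ : ℕ → Sym (WS A)} {x hi n : ℕ}
    (acc : Fin (2 ^ h) → Bool) (hn : n ≤ 2 ^ (h + 1)) (hx : 1 ≤ x)
    (hxn : x + n ≤ hi + 1) (hB : x + 2 ^ h ≤ hi + 1)
    (hlet : ∀ i < n, ∃ a b, τ (x + i) = .sym (.mark a b)) :
    Decides τ hi (memS D acc n) x x (∃ q, acc q = true ∧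
      ∃ m : Fin (2 ^ h), bitS (τ (x + m.val)) = true ∧ path (lrel h rel) τ x n m q) := by
  have key : ∀ m : Fin (2 ^ h), Decides τ hi (ite (chk bitS m.val) (reachS D m acc n)
      (ret false)) x x
      (bitS (τ (x + m.val)) = true ∧ ∃ q, acc q = true ∧ path (lrel h rel) τ x n m q) := by
    intro m
    have hm := m.isLt
    refine (decides_ite (χ := False) (ψ := ∃ q, acc q = true ∧ path (lrel h rel) τ x n m q)
      (decides_chk bitS hx (by omega))
      (fun _ => ?_) (fun _ => (decides_ret _ _ _ _).congr (by simp))).congr (by simp)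
    exact decides_reachS D m acc hn hx hxn hlet
  refine (decides_orL _ _ _ key).congr ?_
  constructor
  · rintro ⟨m, _, h1, q, h2, h3⟩; exact ⟨q, h2, m, h1, h3⟩
  · rintro ⟨q, h2, m, h1, h3⟩; exact ⟨m, List.mem_finRange m, h1, q, h2, h3⟩

omit [Finite A] in
theorem cnt_memS (D : Sub strict h S rel) (acc : Fin (2 ^ h) → Bool) {n : ℕ}
    (hn : n ≤ 2 ^ (h + 1)) : (memS D acc n).cnt ≤ 2 ^ h * (3 * 2 ^ h +
      (S * ((2 ^ (h + 1) + 2) * (clk S h + 1)) + 2 * (2 ^ (h + 1) + 2))) := by
  refine (cnt_orL _ _ (3 * 2 ^ h +
    (S * ((2 ^ (h + 1) + 2) * (clk S h + 1)) + 2 * (2 ^ (h + 1) + 2))) ?_).trans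
    (by rw [List.length_finRange])
  intro m
  have hm := m.isLt
  have h1 := cnt_reachS D m acc hn
  simp only [cnt, cnt_chk]
  omega

end progs

end Pool.Agent.L0h67.LS
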