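import Mathlib
import Pool.Agent.L0h67.LS.Seg

/-!
The programs of the deterministic 1-limited automaton.
-/

set_option autoImplicit false

namespace Pool.Agent.L0h67.LS

open Relation Cmd
open Pool.Agent.H630R2.LA (LimAut Sym fz Fr Cfg Step init initTape WS path lrel bitS isLm ix nr Ann
  link mem_block)
open Pool.Agent.Y527.LA (NeverRewrites OneWay)

section defs

variable {A : Type} {strict : Prop} {h S : ℕ} {rel : A → Fin (2 ^ h) → Fin (2 ^ h) → Bool}
  (D : Sub strict h S rel) (p0 : Fin (2 ^ h)) (facc : Fin (2 ^ h) → Bool)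

/-- Compute the bit of the next cell; the head is on the last visited cell, which has index `k`
when the cells are counted from the beginning of the block (`0` for the last cell of the
previous block). -/
noncomputable def mainP (k : Fin (2 ^ h)) : Cmd (Sym (WS A)) :=
  mvs false k.val (ite (act (fun σ => some (isLm σ)) isLm)
    (mvs true k.val (ret (decide (k = p0))))
    (mvs false (2 ^ h - 2) (thenRight (memS D (fun q => decide (q = k)) (2 ^ h))
      (2 ^ h + k.val))))

/-- The same, starting one cell further left. -/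
noncomputable def nextP (k : Fin (2 ^ h)) : Cmd (Sym (WS A)) := mvs true 1 (mainP D p0 k)

/-- Decide acceptance; the head is on the last letter. -/
noncomputable def finP (k : Fin (2 ^ h)) : Cmd (Sym (WS A)) :=
  mvs false k.val (ite (act (fun σ => some (isLm σ)) isLm)
    (thenRight (reachS D p0 facc k.val) k.val)
    (mvs false (2 ^ h - 2) (thenRight (memS D facc (2 ^ h + k.val)) (2 ^ h + k.val))))

end defs

section correctness

variable {A : Type} {strict : Prop} {h S : ℕ} {rel : A → Fin (2 ^ h) → Fin (2 ^ h) → Bool}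
  {D : Sub strict h S rel} {p0 : Fin (2 ^ h)} {facc : Fin (2 ^ h) → Bool}

theorem decides_lm_true {τ : ℕ → Sym (WS A)} {hi : ℕ} (h0 : τ 0 = .lm) :
    Decides τ hi (act (fun σ => some (isLm σ)) isLm) 0 1 True := by
  refine ⟨true, Run.stop _ _ _ _ _ (Nat.zero_le _) ?_ ?_ ?_, by simp⟩
  · rw [h0]; rfl
  · intro _; rfl
  · rw [h0]; intro h; exact absurd h (by simp [isLm])

theorem decides_lm_false {τ : ℕ → Sym (WS A)} {hi x : ℕ} {a : A} {b : Bool}
    (h0 : τ (x + 1) = .sym (.mark a b)) (hx : x + 1 ≤ hi) :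
    Decides τ hi (act (fun σ => some (isLm σ)) isLm) (x + 1) x False := by
  refine ⟨false, Run.stop _ _ _ _ _ hx ?_ ?_ ?_, by simp⟩
  · rw [h0]; rfl
  · rw [h0]; intro h; exact absurd h (by simp [isLm])
  · intro _; rfl

theorem letters {w : List A} {τ : ℕ → Sym (WS A)} {y : ℕ} (hA : Ann h rel p0 w τ y) {x n : ℕ}
    (hx : 1 ≤ x) (hn : x + n ≤ y + 1) : ∀ i < n, ∃ a b, τ (x + i) = .sym (.mark a b) := by
  intro i hi
  obtain ⟨a, b, _, hτ, _⟩ := hA.2 (x + i - 1) (by omega)
  refine ⟨a, b, ?_⟩
  rw [← hτ]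
  congr 1
  omega

theorem decides_main (hh : 1 ≤ h) {w : List A} {τ : ℕ → Sym (WS A)} {y hi j : ℕ}
    {k : Fin (2 ^ h)} (hA : Ann h rel p0 w τ y) (hy : y = j * 2 ^ h + k.val) (hhi : y ≤ hi) :
    Decides τ hi (mainP D p0 k) y (y + 1) (nr h rel p0 w (j * 2 ^ h) k) := by
  have hB : 2 ≤ 2 ^ h := by
    calc 2 = 2 ^ 1 := rfl
      _ ≤ 2 ^ h := Nat.pow_le_pow_right (by omega) hh
  have hk := k.isLt
  rw [hy]
  apply decides_mvs_left (by omega)
  rcases Nat.eq_zero_or_pos j with hj | hj
  · subst hj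
    have hz : 0 * 2 ^ h = 0 := Nat.zero_mul _
    simp only [hz, Nat.zero_add]
    refine (decides_ite (φ := True) (ψ := nr h rel p0 w 0 k) (χ := False)
      (decides_lm_true hA.1) (fun _ => ?_) (fun h => absurd trivial h)).congr (by tauto)
    have h1 : k.val + 1 = 1 + k.val := by omega
    rw [h1]
    apply decides_mvs_right (by omega)
    exact (decides_ret _ _ _ _).congr (by simp [nr])
  · obtain ⟨j', rfl⟩ : ∃ j', j = j' + 1 := ⟨j - 1, by omega⟩
    have hz : (j' + 1) * 2 ^ h = j' * 2 ^ h + 2 ^ h := by ring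
    have hpos : (j' + 1) * 2 ^ h = (j' * 2 ^ h + 2 ^ h - 1) + 1 := by omega
    obtain ⟨a, b, ha, hτ, -⟩ := hA.2 (j' * 2 ^ h + 2 ^ h - 1) (by omega)
    refine (decides_ite (φ := False) (ψ := True) (χ := nr h rel p0 w ((j' + 1) * 2 ^ h) k)
      (y := j' * 2 ^ h + 2 ^ h - 1) ?_ (fun h => absurd h (by simp)) (fun _ => ?_)).congr (by tauto)
    · rw [hpos]
      exact decides_lm_false hτ (by omega)
    · have h1 : j' * 2 ^ h + 2 ^ h - 1 = j' * 2 ^ h + 1 + (2 ^ h - 2) := by omega
      rw [h1]
      apply decides_mvs_left (by omega)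
      have h2 : (j' + 1) * 2 ^ h + k.val + 1 = j' * 2 ^ h + 1 + (2 ^ h + k.val) := by omega
      rw [h2]
      apply decides_thenRight _ (by omega)
      refine (decides_memS D _ ?_ (by omega) (by omega) (by omega)
        (letters hA (by omega) (by omega))).congr ?_
      · rw [pow_succ]; omega
      · have h5 := mem_block hA j' (2 ^ h) k (by omega) (by omega)
        rw [← hz] at h5
        rw [← h5]
        constructor
        · rintro ⟨q, hq, h3⟩
          have hq' : q = k := of_decide_eq_true hq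
          rw [← hq']
          exact h3
        · intro h3
          exact ⟨k, decide_eq_true rfl, h3⟩

theorem decides_fin (hh : 1 ≤ h) {w : List A} {τ : ℕ → Sym (WS A)} {y hi j : ℕ}
    {k : Fin (2 ^ h)} (hA : Ann h rel p0 w τ y) (hy : y = j * 2 ^ h + k.val) (hhi : y ≤ hi) :
    Decides τ hi (finP D p0 facc k) y (y + 1) (∃ f, facc f = true ∧ nr h rel p0 w y f) := by
  have hB : 2 ≤ 2 ^ h := by
    calc 2 = 2 ^ 1 := rfl
      _ ≤ 2 ^ h := Nat.pow_le_pow_right (by omega) hh
  have hk := k.isLt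
  have hpow : 2 ^ (h + 1) = 2 ^ h + 2 ^ h := by ring
  rw [hy]
  apply decides_mvs_left (by omega)
  rcases Nat.eq_zero_or_pos j with hj | hj
  · subst hj
    have hz : 0 * 2 ^ h = 0 := Nat.zero_mul _
    simp only [hz, Nat.zero_add] at hy ⊢
    refine (decides_ite (φ := True) (ψ := ∃ f, facc f = true ∧ nr h rel p0 w k.val f) (χ := False)
      (decides_lm_true hA.1) (fun _ => ?_) (fun h => absurd trivial h)).congr (by simp)
    have h1 : k.val + 1 = 1 + k.val := by omega
    rw [h1]
    apply decides_thenRight _ (by omega)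
    refine (decides_reachS D p0 facc (by omega) le_rfl (by omega)
      (letters hA le_rfl (by omega))).congr ?_
    have h2 := fun f => link hA k.val 0 f (by omega)
    simp only [Nat.zero_add] at h2
    constructor
    · rintro ⟨f, hf, h3⟩
      exact ⟨f, hf, (h2 f).1 ⟨p0, rfl, h3⟩⟩
    · rintro ⟨f, hf, h3⟩
      obtain ⟨p, hp, h4⟩ := (h2 f).2 h3
      have hp' : p = p0 := hp
      rw [hp'] at h4
      exact ⟨f, hf, h4⟩
  · obtain ⟨j', rfl⟩ : ∃ j', j = j' + 1 := ⟨j - 1, by omega⟩
    have hz : (j' + 1) * 2 ^ h = j' * 2 ^ h + 2 ^ h := by ring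
    have hpos : (j' + 1) * 2 ^ h = (j' * 2 ^ h + 2 ^ h - 1) + 1 := by omega
    obtain ⟨a, b, ha, hτ, -⟩ := hA.2 (j' * 2 ^ h + 2 ^ h - 1) (by omega)
    refine (decides_ite (φ := False) (ψ := True)
      (χ := ∃ f, facc f = true ∧ nr h rel p0 w ((j' + 1) * 2 ^ h + k.val) f)
      (y := j' * 2 ^ h + 2 ^ h - 1) ?_ (fun h => absurd h (by simp)) (fun _ => ?_)).congr (by tauto)
    · rw [hpos]
      exact decides_lm_false hτ (by omega)
    · have h1 : j' * 2 ^ h + 2 ^ h - 1 = j' * 2 ^ h + 1 + (2 ^ h - 2) := by omega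
      rw [h1]
      apply decides_mvs_left (by omega)
      have h2 : (j' + 1) * 2 ^ h + k.val + 1 = j' * 2 ^ h + 1 + (2 ^ h + k.val) := by omega
      rw [h2]
      apply decides_thenRight _ (by omega)
      refine (decides_memS D facc (by omega) (by omega) (by omega) (by omega)
        (letters hA (by omega) (by omega))).congr ?_
      have h3 : j' * 2 ^ h + (2 ^ h + k.val) = (j' + 1) * 2 ^ h + k.val := by omega
      constructor
      · rintro ⟨f, hf, h4⟩
        refine ⟨f, hf, ?_⟩
        rw [← h3]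
        exact (mem_block hA j' (2 ^ h + k.val) f (by omega) (by omega)).1 h4
      · rintro ⟨f, hf, h4⟩
        refine ⟨f, hf, ?_⟩
        rw [← h3] at h4
        exact (mem_block hA j' (2 ^ h + k.val) f (by omega) (by omega)).2 h4

end correctness

end Pool.Agent.L0h67.LS
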