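import Mathlib
import Pool.Agent.L0h67.LS.Machine
import Pool.Agent.H630R2.LA.Upper

/-!
The deterministic 1-limited automaton which runs the programs of `Machine`.
-/

set_option autoImplicit false

namespace Pool.Agent.L0h67.LS

open Relation Cmd
open Pool.Agent.H630R2.LA (LimAut Sym fz Fr Cfg Step init initTape WS path lrel bitS isLm ix nr Ann
  link mem_block keep finite_WS rewrite_keep nr_zero lift not_mem_of_stuck card_WS numTrans_le)
open Pool.Agent.Y527.LA (NeverRewrites OneWay)

section det

variable {A : Type} {str : Prop} {h S0 : ℕ} {rel : A → Fin (2 ^ h) → Fin (2 ^ h) → Bool}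
  (D : Sub str h S0 rel) (p0 : Fin (2 ^ h)) (facc : Fin (2 ^ h) → Bool)

/-- The states of the deterministic machine. -/
def QS : Type :=
  (Fin (2 ^ h) × Bool) ⊕ ((Σ k : Fin (2 ^ h), (nextP D p0 k).St) ⊕
    ((Σ k : Fin (2 ^ h), (finP D p0 facc k).St) ⊕ Bool))

/-- The head is on an unvisited cell with index `k` in its block, whose bit is `b`. -/
def wrQ (k : Fin (2 ^ h)) (b : Bool) : QS D p0 facc := Sum.inl (k, b)

def nxQ (k : Fin (2 ^ h)) (s : (nextP D p0 k).St) : QS D p0 facc :=
  Sum.inr (Sum.inl ⟨k, s⟩)

def fiQ (k : Fin (2 ^ h)) (s : (finP D p0 facc k).St) : QS D p0 facc :=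
  Sum.inr (Sum.inr (Sum.inl ⟨k, s⟩))

def enQ (b : Bool) : QS D p0 facc := Sum.inr (Sum.inr (Sum.inr b))

/-- The moves of the deterministic machine. -/
noncomputable def tr (q : QS D p0 facc) (σ : Sym (WS A)) : Option (QS D p0 facc × WS A × Bool) :=
  match q with
  | Sum.inl (k, b) => match σ with
    | .sym (.raw a) => some (Sum.elim (nxQ D p0 facc (ix h (k.val + 1)))
        (wrQ D p0 facc (ix h (k.val + 1))) (nextP D p0 (ix h (k.val + 1))).entry,
        .mark a b, false)
    | .rm => some (Sum.elim (fiQ D p0 facc k) (enQ D p0 facc)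
        (finP D p0 facc k).entry, .dum, false)
    | _ => none
  | Sum.inr (Sum.inl ⟨k, s⟩) => some (Sum.elim (nxQ D p0 facc k) (wrQ D p0 facc k)
        ((nextP D p0 k).next s σ), keep σ, (nextP D p0 k).dir s σ)
  | Sum.inr (Sum.inr (Sum.inl ⟨k, s⟩)) => some (Sum.elim (fiQ D p0 facc k)
        (enQ D p0 facc) ((finP D p0 facc k).next s σ), keep σ,
        (finP D p0 facc k).dir s σ)
  | Sum.inr (Sum.inr (Sum.inr b)) => match b, σ with
    | true, .rm => some (enQ D p0 facc true, .dum, true)
    | _, _ => none

theorem finite_QS : Finite (QS D p0 facc) := by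
  unfold QS
  infer_instance

/-- The deterministic machine. -/
noncomputable def detM [Finite A] : LimAut A where
  Q := QS D p0 facc
  W := WS A
  finQ := finite_QS D p0 facc
  finW := finite_WS A
  inp := WS.raw
  inp_inj := by
    intro a b hab
    cases hab
    rfl
  δ := fun q σ => {x | tr D p0 facc q σ = some x}
  q0 := wrQ D p0 facc (ix h 0) (decide (ix h 0 = p0))
  F := {enQ D p0 facc true}

variable [Finite A]

theorem detM_det : (detM D p0 facc : LimAut A).Deterministic := by
  intro q σ x hx y hy
  have h1 : tr D p0 facc q σ = some x := hx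
  have h2 : tr D p0 facc q σ = some y := hy
  rw [h1] at h2
  exact Option.some.inj h2

variable {D p0 facc} {strict : Prop}

theorem impl_next (k : Fin (2 ^ h)) : Impl strict (detM D p0 facc : LimAut A)
    (nextP D p0 k) (nxQ D p0 facc k) (wrQ D p0 facc k) := by
  intro s σ
  exact ⟨keep σ, rfl, fun _ => rewrite_keep σ⟩

theorem impl_fin (k : Fin (2 ^ h)) : Impl strict (detM D p0 facc : LimAut A)
    (finP D p0 facc k) (fiQ D p0 facc k) (enQ D p0 facc) := by
  intro s σ
  exact ⟨keep σ, rfl, fun _ => rewrite_keep σ⟩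

/-- The main loop. -/
theorem loop (hh : 1 ≤ h) (w : List A) (t : ℕ) (ht : t ≤ w.length) :
    ∃ (τ : ℕ → Sym (WS A)) (S : Set ℕ) (b : Bool), Ann h rel p0 w τ t ∧
      (∀ i, t < i → τ i = initTape (detM D p0 facc) w i) ∧
      (∀ i, 1 ≤ i → (i ∈ S ↔ i ≤ t)) ∧
      (b = true ↔ nr h rel p0 w ((t / 2 ^ h) * 2 ^ h) (ix h t)) ∧
      ReflTransGen (Step strict w.length) (init (detM D p0 facc) w)
        ⟨wrQ D p0 facc (ix h t) b, t + 1, τ, S⟩ := by
  induction t with
  | zero =>
    refine ⟨initTape (detM D p0 facc) w, ∅, decide (ix h 0 = p0), ⟨rfl, ?_⟩, fun _ _ => rfl,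
      ?_, ?_, ReflTransGen.refl⟩
    · intro i hi; exact absurd hi (Nat.not_lt_zero _)
    · intro i hi; simp; omega
    · rw [Nat.zero_div, Nat.zero_mul, nr_zero]
      simp
  | succ t ih =>
    obtain ⟨τ, S, b, hA, hτ, hS, hb, hreach⟩ := ih (by omega)
    have hlt : t < w.length := by omega
    have hwt : w[t]? = some w[t] := List.getElem?_eq_getElem hlt
    have hcell : τ (t + 1) = .sym (.raw w[t]) := by
      rw [hτ (t + 1) (by omega)]
      simp only [initTape, hwt]
      rfl
    set τ' : ℕ → Sym (WS A) := Function.update τ (t + 1) (.sym (.mark w[t] b)) with hτ'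
    have hagree : ∀ i, i ≤ t → τ' i = τ i := by
      intro i hi
      rw [hτ', Function.update_of_ne]
      omega
    have hnew : τ' (t + 1) = .sym (.mark w[t] b) := by
      rw [hτ', Function.update_self]
    have hA' : Ann h rel p0 w τ' (t + 1) := by
      refine ⟨by rw [hagree 0 (by omega)]; exact hA.1, ?_⟩
      intro i hi
      rcases Nat.lt_or_ge i t with h1 | h1
      · rw [hagree (i + 1) (by omega)]
        exact hA.2 i h1
      · have : i = t := by omega
        subst this
        exact ⟨w[i], b, hwt, hnew, hb⟩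
    have hnot : t + 1 ∉ S := by
      intro h
      have := (hS (t + 1) (by omega)).1 h
      omega
    have hS1 : ∀ i, 1 ≤ i → (i ∈ insert (t + 1) S ↔ i ≤ t + 1) := by
      intro i hi
      rw [Set.mem_insert_iff, hS i hi]
      omega
    have hk' : ix h ((ix h t).val + 1) = ix h (t + 1) := by
      apply Fin.ext
      show (t % 2 ^ h + 1) % 2 ^ h = (t + 1) % 2 ^ h
      rw [Nat.mod_add_mod]
    have hstep : Step strict w.length
        (⟨wrQ D p0 facc (ix h t) b, t + 1, τ, S⟩ : Cfg (detM D p0 facc))
        ⟨Sum.elim (nxQ D p0 facc (ix h (t + 1))) (wrQ D p0 facc (ix h (t + 1)))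
          (nextP D p0 (ix h (t + 1))).entry, t, τ', insert (t + 1) S⟩ := by
      refine ⟨by show t + 1 ≤ w.length + 1; omega, _, .mark w[t] b, false, ?_, fun _ h => absurd h hnot, rfl,
        fun h => absurd h hnot, ?_, rfl, by simp, by simp⟩
      · show tr D p0 facc (wrQ D p0 facc (ix h t) b) (τ (t + 1)) = some _
        rw [hcell]
        simp only [tr, wrQ]
        rw [hk']
        rfl
      · intro _
        show τ' = Function.update τ (t + 1) ((τ (t + 1)).rewrite (.mark w[t] b))
        rw [hcell]
        rfl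
    have hy : t + 1 = ((t + 1) / 2 ^ h) * 2 ^ h + (ix h (t + 1)).val := by
      show t + 1 = ((t + 1) / 2 ^ h) * 2 ^ h + (t + 1) % 2 ^ h
      rw [Nat.mul_comm, Nat.div_add_mod]
    obtain ⟨b', hrun, hb'⟩ := decides_main (D := D) (hi := t + 1) hh hA' hy le_rfl
    have hrun' : Run τ' (t + 1) (nextP D p0 (ix h (t + 1))) t b' (t + 1 + 1) :=
      run_mvs_right (n := 1) (by omega) hrun
    have hpath := Impl.run (strict := strict) (M := detM D p0 facc) hrun' _ _
      (impl_next (facc := facc) (ix h (t + 1)))
    obtain ⟨S', hS', hlift⟩ := lift (n := w.length) (by omega) hA'.1 hpath _ hS1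
    refine ⟨τ', S', b', hA', ?_, hS', hb', (hreach.tail hstep).trans hlift⟩
    intro i hi
    rw [hτ', Function.update_of_ne (by omega)]
    exact hτ i (by omega)

/-- The language of the deterministic machine. -/
theorem detM_language (hh : 1 ≤ h) (w : List A) :
    w ∈ (detM D p0 facc : LimAut A).language strict ↔
      ∃ f, facc f = true ∧ nr h rel p0 w w.length f := by
  obtain ⟨τ, S, b, hA, hτ, hS, hb, hreach⟩ := loop (strict := strict) (D := D) (p0 := p0)
    (facc := facc) hh w w.length le_rfl
  have hcell : τ (w.length + 1) = .rm := by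
    rw [hτ (w.length + 1) (by omega)]
    simp only [initTape, List.getElem?_eq_none (le_refl w.length)]
    rfl
  have hnot : w.length + 1 ∉ S := by
    intro h
    have := (hS (w.length + 1) (by omega)).1 h
    omega
  have hS1 : ∀ i, 1 ≤ i → (i ∈ insert (w.length + 1) S ↔ i ≤ w.length + 1) := by
    intro i hi
    rw [Set.mem_insert_iff, hS i hi]
    omega
  have hstep : Step strict w.length
      (⟨wrQ D p0 facc (ix h w.length) b, w.length + 1, τ, S⟩ : Cfg (detM D p0 facc))
      ⟨Sum.elim (fiQ D p0 facc (ix h w.length)) (enQ D p0 facc)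
        (finP D p0 facc (ix h w.length)).entry, w.length, τ, insert (w.length + 1) S⟩ := by
    refine ⟨le_rfl, _, .dum, false, ?_, fun _ h => absurd h hnot, rfl,
      fun h => absurd h hnot, ?_, rfl, by simp, by simp⟩
    · show tr D p0 facc (wrQ D p0 facc (ix h w.length) b) (τ (w.length + 1)) = some _
      rw [hcell]
      rfl
    · intro _
      show τ = Function.update τ (w.length + 1) ((τ (w.length + 1)).rewrite .dum)
      funext i
      by_cases hi : i = w.length + 1
      · subst hi
        rw [Function.update_self, hcell]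
        rfl
      · rw [Function.update_of_ne hi]
  have hy : w.length = (w.length / 2 ^ h) * 2 ^ h + (ix h w.length).val := by
    show w.length = (w.length / 2 ^ h) * 2 ^ h + w.length % 2 ^ h
    rw [Nat.mul_comm, Nat.div_add_mod]
  obtain ⟨b', hrun, hb'⟩ := decides_fin (D := D) (facc := facc) (hi := w.length + 1) hh hA hy (by omega)
  have hpath := Impl.run (strict := strict) (M := detM D p0 facc) hrun _ _
    (impl_fin (facc := facc) (ix h w.length))
  obtain ⟨S', hS', hlift⟩ := lift (n := w.length) le_rfl hA.1 hpath _ hS1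
  have hall := (hreach.tail hstep).trans hlift
  rw [← hb']
  cases b'
  · simp only [Bool.false_eq_true, iff_false]
    refine not_mem_of_stuck (detM_det D p0 facc) hall ?_ ?_
    · rintro c' ⟨_, q, b, d, hδ, _⟩
      have : tr D p0 facc (enQ D p0 facc false) (τ (w.length + 1)) = some (q, b, d) := hδ
      simp [tr, enQ] at this
    · show w.length + 1 ≠ w.length + 2
      omega
  · simp only [iff_true]
    refine ⟨⟨enQ D p0 facc true, w.length + 2, τ, insert (w.length + 1) S'⟩,
      hall.tail ?_, rfl, rfl⟩
    have hin : w.length + 1 ∈ S' := (hS' _ (by omega)).2 le_rfl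
    refine ⟨le_rfl, enQ D p0 facc true, .dum, true, ?_, ?_, rfl, fun _ => rfl,
      fun h => absurd hin h, rfl, fun _ => rfl, fun h => absurd h (by simp)⟩
    · show tr D p0 facc (enQ D p0 facc true) (τ (w.length + 1)) = some _
      rw [hcell]
      rfl
    · intro _ _
      show (τ (w.length + 1)).rewrite .dum = τ (w.length + 1)
      rw [hcell]
      rfl

end det

end Pool.Agent.L0h67.LS
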