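import Mathlib
import Pool.Agent.L0h67.LS.Det

/-!
The size of the deterministic 1-limited automaton, and the determinization of one-way and of
1-limited automata.
-/

set_option autoImplicit false

namespace Pool.Agent.L0h67.LS

open Relation Cmd
open Pool.Agent.H630R2.LA (LimAut Sym fz Fr Cfg Step init initTape WS path lrel bitS isLm ix nr Ann
  link mem_block card_WS numTrans_le ext nstep nreach mem_language card_table)
open Pool.Agent.Y527.LA (NeverRewrites OneWay)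

section card

/-- The bound for the subroutine. -/
theorem R_le (B S : ℕ) (hB : 1 ≤ B) (hS : 1 ≤ S) :
    S * ((2 * B + 2) * (S * (2 * B + 3) + 1)) + 2 * (2 * B + 2) ≤ 32 * (B * B * (S * S)) := by
  have h1 : 2 * B + 2 ≤ 4 * B := by omega
  have h2 : S * (2 * B + 3) + 1 ≤ 6 * (B * S) := by
    have h3 : S * (2 * B + 3) ≤ S * (5 * B) := Nat.mul_le_mul_left _ (by omega)
    have h4 : 1 ≤ B * S := Nat.mul_pos hB hS
    have h5 : S * (5 * B) = 5 * (B * S) := by ring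
    omega
  have h3 : (2 * B + 2) * (S * (2 * B + 3) + 1) ≤ (4 * B) * (6 * (B * S)) := Nat.mul_le_mul h1 h2
  have h4 : S * ((2 * B + 2) * (S * (2 * B + 3) + 1)) ≤ S * ((4 * B) * (6 * (B * S))) :=
    Nat.mul_le_mul_left _ h3
  have h5 : S * ((4 * B) * (6 * (B * S))) = 24 * (B * B * (S * S)) := by ring
  have h6 : B ≤ B * B * (S * S) := by
    calc B = B * 1 * (1 * 1) := by ring
      _ ≤ B * B * (S * S) := Nat.mul_le_mul (Nat.mul_le_mul_left _ hB) (Nat.mul_le_mul hS hS)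
  omega

variable {A : Type} {str : Prop} {h S0 : ℕ} {rel : A → Fin (2 ^ h) → Fin (2 ^ h) → Bool}
  {D : Sub str h S0 rel} {p0 : Fin (2 ^ h)} {facc : Fin (2 ^ h) → Bool}

theorem cnt_mem_le (hS : 1 ≤ S0) (acc : Fin (2 ^ h) → Bool) {n : ℕ} (hn : n ≤ 2 ^ (h + 1)) :
    (memS D acc n).cnt ≤ 35 * (2 ^ h * (2 ^ h * 2 ^ h * (S0 * S0))) := by
  have hB : 1 ≤ 2 ^ h := Nat.one_le_two_pow
  have h1 := cnt_memS D acc hn
  have e : 2 ^ (h + 1) = 2 * 2 ^ h := by ring
  unfold clk at h1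
  rw [e] at h1
  have h2 := R_le (2 ^ h) S0 hB hS
  have h3 : 2 ^ h ≤ 2 ^ h * 2 ^ h * (S0 * S0) := by
    calc 2 ^ h = 2 ^ h * 1 * (1 * 1) := by ring
      _ ≤ 2 ^ h * 2 ^ h * (S0 * S0) :=
        Nat.mul_le_mul (Nat.mul_le_mul_left _ hB) (Nat.mul_le_mul hS hS)
  refine h1.trans ?_
  have h4 : 35 * (2 ^ h * (2 ^ h * 2 ^ h * (S0 * S0))) =
      2 ^ h * (35 * (2 ^ h * 2 ^ h * (S0 * S0))) := by ring
  rw [h4]
  apply Nat.mul_le_mul_left
  omega

theorem cnt_reach_le (hS : 1 ≤ S0) (m : Fin (2 ^ h)) (acc : Fin (2 ^ h) → Bool) {n : ℕ}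
    (hn : n ≤ 2 ^ (h + 1)) : (reachS D m acc n).cnt ≤ 32 * (2 ^ h * 2 ^ h * (S0 * S0)) := by
  have hB : 1 ≤ 2 ^ h := Nat.one_le_two_pow
  have h1 := cnt_reachS D m acc hn
  have e : 2 ^ (h + 1) = 2 * 2 ^ h := by ring
  unfold clk at h1
  rw [e] at h1
  exact h1.trans (R_le (2 ^ h) S0 hB hS)

theorem cnt_nextP (hS : 1 ≤ S0) (k : Fin (2 ^ h)) :
    (nextP D p0 k).cnt ≤ 44 * (2 ^ h * (2 ^ h * 2 ^ h * (S0 * S0))) := by
  have hB : 1 ≤ 2 ^ h := Nat.one_le_two_pow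
  have hk := k.isLt
  have hp : 2 ^ (h + 1) = 2 * 2 ^ h := by ring
  have h1 := cnt_mem_le (D := D) hS (fun q => decide (q = k)) (n := 2 ^ h) (by omega)
  have h3 : 2 ^ h ≤ 2 ^ h * (2 ^ h * 2 ^ h * (S0 * S0)) := by
    calc 2 ^ h = 2 ^ h * (1 * 1 * (1 * 1)) := by ring
      _ ≤ 2 ^ h * (2 ^ h * 2 ^ h * (S0 * S0)) :=
        Nat.mul_le_mul_left _ (Nat.mul_le_mul (Nat.mul_le_mul hB hB) (Nat.mul_le_mul hS hS))
  simp only [nextP, mainP, cnt_mvs, cnt, cnt_thenRight]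
  omega

theorem cnt_finP (hS : 1 ≤ S0) (k : Fin (2 ^ h)) :
    (finP D p0 facc k).cnt ≤ 76 * (2 ^ h * (2 ^ h * 2 ^ h * (S0 * S0))) := by
  have hB : 1 ≤ 2 ^ h := Nat.one_le_two_pow
  have hk := k.isLt
  have hp : 2 ^ (h + 1) = 2 * 2 ^ h := by ring
  have h1 := cnt_mem_le (D := D) hS facc (n := 2 ^ h + k.val) (by omega)
  have h2 := cnt_reach_le (D := D) hS p0 facc (n := k.val) (by omega)
  have h3 : 2 ^ h ≤ 2 ^ h * (2 ^ h * 2 ^ h * (S0 * S0)) := by
    calc 2 ^ h = 2 ^ h * (1 * 1 * (1 * 1)) := by ring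
      _ ≤ 2 ^ h * (2 ^ h * 2 ^ h * (S0 * S0)) :=
        Nat.mul_le_mul_left _ (Nat.mul_le_mul (Nat.mul_le_mul hB hB) (Nat.mul_le_mul hS hS))
  have h4 : 2 ^ h * 2 ^ h * (S0 * S0) ≤ 2 ^ h * (2 ^ h * 2 ^ h * (S0 * S0)) :=
    Nat.le_mul_of_pos_left _ hB
  simp only [finP, cnt_mvs, cnt, cnt_thenRight]
  omega

theorem card_QS (hS : 1 ≤ S0) :
    Nat.card (QS D p0 facc) ≤ 128 * ((2 ^ h) ^ 4 * S0 ^ 2) := by
  have hB : 1 ≤ 2 ^ h := Nat.one_le_two_pow
  have e : Nat.card (QS D p0 facc) = 2 ^ h * 2 +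
      ((∑ k : Fin (2 ^ h), (nextP D p0 k).cnt) +
        ((∑ k : Fin (2 ^ h), (finP D p0 facc k).cnt) + 2)) := by
    unfold QS
    rw [Nat.card_sum, Nat.card_sum, Nat.card_sum, Nat.card_prod, Nat.card_sigma, Nat.card_sigma]
    simp only [card_St, Nat.card_eq_fintype_card, Fintype.card_fin, Fintype.card_bool]
  set X := 2 ^ h * (2 ^ h * 2 ^ h * (S0 * S0)) with hX
  have s1 : ∑ k : Fin (2 ^ h), (nextP D p0 k).cnt ≤ 2 ^ h * (44 * X) := by
    have : ∑ k : Fin (2 ^ h), (nextP D p0 k).cnt ≤ ∑ _k : Fin (2 ^ h), (44 * X) :=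
      Finset.sum_le_sum fun k _ => cnt_nextP hS k
    refine this.trans ?_
    simp
  have s2 : ∑ k : Fin (2 ^ h), (finP D p0 facc k).cnt ≤ 2 ^ h * (76 * X) := by
    have : ∑ k : Fin (2 ^ h), (finP D p0 facc k).cnt ≤ ∑ _k : Fin (2 ^ h), (76 * X) :=
      Finset.sum_le_sum fun k _ => cnt_finP hS k
    refine this.trans ?_
    simp
  have e2 : (2 ^ h) ^ 4 * S0 ^ 2 = 2 ^ h * X := by
    rw [hX]; ring
  have hX1 : 1 ≤ X := by
    rw [hX]
    exact Nat.mul_pos hB (Nat.mul_pos (Nat.mul_pos hB hB) (Nat.mul_pos hS hS))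
  have h4 : 2 ^ h ≤ 2 ^ h * X := Nat.le_mul_of_pos_right _ hX1
  have h5 : 2 ^ h * (44 * X) = 44 * (2 ^ h * X) := by ring
  have h6 : 2 ^ h * (76 * X) = 76 * (2 ^ h * X) := by ring
  rw [e, e2]
  omega

theorem one_le_S0 [Finite A] (D : Sub str h S0 rel) (p0 : Fin (2 ^ h)) : 1 ≤ S0 := by
  have := (D.aut p0 (fun _ => true)).finQ
  have : Nonempty (D.aut p0 (fun _ => true)).Q := ⟨(D.aut p0 (fun _ => true)).q0⟩
  have h1 : 1 ≤ Nat.card (D.aut p0 (fun _ => true)).Q := Nat.card_pos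
  exact h1.trans (D.card _ _)

theorem size_detM [Finite A] : (detM D p0 facc : LimAut A).size ≤
    2 ^ 12 * ((2 ^ h) ^ 4 * S0 ^ 2) * (Nat.card A + 1) := by
  have hS := one_le_S0 D p0
  have h1 : (detM D p0 facc : LimAut A).numTrans ≤
      Nat.card (QS D p0 facc) * (Nat.card (WS A) + 2) := numTrans_le _ (detM_det D p0 facc)
  have h2 := card_QS (D := D) (p0 := p0) (facc := facc) hS
  have h3 := card_WS A
  have hpos : 1 ≤ Nat.card (QS D p0 facc) := by
    have := finite_QS D p0 facc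
    have : Nonempty (QS D p0 facc) := ⟨enQ D p0 facc true⟩
    exact Nat.card_pos
  have hsize : (detM D p0 facc : LimAut A).size = Nat.card (QS D p0 facc) + Nat.card A +
      (Nat.card (WS A) + 2) + 5 * (detM D p0 facc : LimAut A).numTrans + 1 +
      ({enQ D p0 facc true} : Set (QS D p0 facc)).ncard := rfl
  rw [hsize, Set.ncard_singleton, h3]
  rw [h3] at h1
  generalize (detM D p0 facc : LimAut A).numTrans = T at *
  generalize Nat.card (QS D p0 facc) = q at *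
  generalize (2 ^ h) ^ 4 * S0 ^ 2 = Z at *
  generalize Nat.card A = a at *
  have h5 : q * (3 * a + 1 + 2) = 3 * (q * (a + 1)) := by ring
  rw [h5] at h1
  have h6 : a + 1 ≤ q * (a + 1) := Nat.le_mul_of_pos_left _ hpos
  have h7 : q ≤ q * (a + 1) := Nat.le_mul_of_pos_right _ (by omega)
  have h8 : q * (a + 1) ≤ 128 * Z * (a + 1) := Nat.mul_le_mul_right _ h2
  have h9 : 2 ^ 12 * Z * (a + 1) = 4096 * (Z * (a + 1)) := by ring
  have h10 : 128 * Z * (a + 1) = 128 * (Z * (a + 1)) := by ring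
  rw [h9]
  rw [h10] at h8
  omega

end card

section convert

/-- Determinization of a relation on `2 ^ h` states. -/
theorem exists_rel {A : Type} [Finite A] {strict : Prop} {h S : ℕ} (hh : 1 ≤ h)
    (hS : Short strict (2 ^ (h + 1)) S) (hA : Nat.card A ≤ 2 ^ (h + 1))
    (rel : A → Fin (2 ^ h) → Fin (2 ^ h) → Bool) (p0 : Fin (2 ^ h)) (facc : Fin (2 ^ h) → Bool) :
    ∃ M' : LimAut A, M'.Deterministic ∧
      (∀ w, w ∈ M'.language strict ↔ ∃ f, facc f = true ∧ nr h rel p0 w w.length f) ∧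
      M'.size ≤ 2 ^ 12 * ((2 ^ h) ^ 4 * S ^ 2) * (Nat.card A + 1) := by
  obtain ⟨D⟩ := exists_sub (strict := strict) hS hA rel
  exact ⟨detM D p0 facc, detM_det D p0 facc, fun w => detM_language hh w, size_detM⟩

variable {A : Type} {strict : Prop} {M : LimAut A}

open Classical in
/-- Every 1-limited automaton whose table automaton has at most `2 ^ h` states has an equivalent
deterministic one. -/
theorem exists_det [Finite A] (M : LimAut A) (strict : Prop) {h S : ℕ} (hh : 1 ≤ h)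
    (hS : Short strict (2 ^ (h + 1)) S) (hA : Nat.card A ≤ 2 ^ (h + 1))
    (hcard : Nat.card (Set (M.Q × M.Q) × M.Q) ≤ 2 ^ h) :
    ∃ M' : LimAut A, M'.Deterministic ∧ M'.language strict = M.language strict ∧
      M'.size ≤ 2 ^ 12 * ((2 ^ h) ^ 4 * S ^ 2) * (Nat.card A + 1) := by
  have := M.finQ
  obtain ⟨e⟩ : Nonempty (Set (M.Q × M.Q) × M.Q ↪ Fin (2 ^ h)) := by
    have e1 := Finite.equivFin (Set (M.Q × M.Q) × M.Q)
    exact ⟨e1.toEmbedding.trans (Fin.castLEEmb hcard)⟩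
  let rel : A → Fin (2 ^ h) → Fin (2 ^ h) → Bool := fun a i j =>
    decide (∃ x y, e x = i ∧ e y = j ∧ nstep strict M (.sym (M.inp a)) x y)
  let p0 : Fin (2 ^ h) := e (ext strict M ∅ .lm, M.q0)
  let facc : Fin (2 ^ h) → Bool := fun i =>
    decide (∃ x y, e x = i ∧ nstep strict M .rm x y ∧ y.2 ∈ M.F)
  obtain ⟨M', h1, h2, h3⟩ := exists_rel hh hS hA rel p0 facc
  refine ⟨M', h1, ?_, h3⟩
  ext w
  rw [h2, mem_language]
  have key : ∀ t, t ≤ w.length → ∀ i, nr h rel p0 w t i ↔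
      ∃ x, e x = i ∧ nreach strict M (initTape M w) t x := by
    intro t
    induction t with
    | zero =>
      intro _ i
      constructor
      · intro hi
        have hi' : i = p0 := hi
        subst hi'
        exact ⟨_, rfl, rfl⟩
      · rintro ⟨x, rfl, hx⟩
        have hx' : x = (ext strict M ∅ .lm, M.q0) := hx
        rw [hx']
        rfl
    | succ t ih =>
      intro ht i
      have hwt : w[t]? = some w[t] := List.getElem?_eq_getElem (by omega)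
      have hcell : initTape M w (t + 1) = .sym (M.inp w[t]) := by
        simp only [initTape, hwt]
      constructor
      · rintro ⟨p, hp, a, ha, hr⟩
        rw [hwt] at ha
        cases ha
        obtain ⟨x, hx1, hx2⟩ := (ih (by omega) p).1 hp
        have hr' := of_decide_eq_true hr
        obtain ⟨x', y, hx', hy, hs⟩ := hr'
        have : x' = x := e.injective (by rw [hx', hx1])
        subst this
        refine ⟨y, hy, x', hx2, ?_⟩
        rw [hcell]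
        exact hs
      · rintro ⟨y, hy, x, hx, hs⟩
        refine ⟨e x, (ih (by omega) _).2 ⟨x, rfl, hx⟩, w[t], hwt, ?_⟩
        rw [hcell] at hs
        exact decide_eq_true ⟨x, y, rfl, hy, hs⟩
  have hlast : initTape M w (w.length + 1) = .rm := by
    simp only [initTape, List.getElem?_eq_none (le_refl w.length)]
  constructor
  · rintro ⟨f, hf, hn⟩
    obtain ⟨x, hx1, hx2⟩ := (key _ le_rfl f).1 hn
    obtain ⟨x', y, hx', hs, hy⟩ := of_decide_eq_true hf
    have : x' = x := e.injective (by rw [hx', hx1])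
    subst this
    refine ⟨y.1, y.2, ⟨x', hx2, ?_⟩, hy⟩
    rw [hlast]
    exact hs
  · rintro ⟨R, f, ⟨x, hx, hs⟩, hf⟩
    rw [hlast] at hs
    exact ⟨e x, decide_eq_true ⟨x, (R, f), rfl, hs, hf⟩, (key _ le_rfl _).2 ⟨x, rfl, hx⟩⟩

theorem size_pos (M : LimAut A) : 4 ≤ M.size ∧ Nat.card M.Q + Nat.card A + 3 ≤ M.size ∧
    1 ≤ Nat.card M.Q := by
  have := M.finQ
  have hq1 : 1 ≤ Nat.card M.Q := by
    have : Nonempty M.Q := ⟨M.q0⟩
    exact Nat.card_pos
  unfold LimAut.size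
  omega

/-- Every 1-limited automaton of size `n`. -/
theorem upperS [Finite A] (M : LimAut A) (strict : Prop) {n S : ℕ} (hn : M.size ≤ n)
    (hS : Short strict (2 ^ (n ^ 2 + 1)) S) :
    ∃ M' : LimAut A, M'.Deterministic ∧ M'.language strict = M.language strict ∧
      M'.size ≤ 2 ^ (6 * n ^ 2) * S ^ 2 := by
  have := M.finQ
  obtain ⟨h4, hq, hq1⟩ := size_pos M
  have hcard : Nat.card (Set (M.Q × M.Q) × M.Q) ≤ 2 ^ (n ^ 2) := by
    rw [card_table]
    calc 2 ^ (Nat.card M.Q * Nat.card M.Q) * Nat.card M.Q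
        ≤ 2 ^ (Nat.card M.Q * Nat.card M.Q) * 2 ^ (Nat.card M.Q) :=
          Nat.mul_le_mul_left _ (Nat.lt_two_pow_self).le
      _ = 2 ^ (Nat.card M.Q * Nat.card M.Q + Nat.card M.Q) := by rw [pow_add]
      _ ≤ 2 ^ (n ^ 2) := by
          apply Nat.pow_le_pow_right (by omega)
          nlinarith
  have hA : Nat.card A + 1 ≤ 2 ^ n := by
    calc Nat.card A + 1 ≤ n := by omega
      _ ≤ 2 ^ n := (Nat.lt_two_pow_self).le
  have hn2 : n ≤ n ^ 2 + 1 := by nlinarith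
  obtain ⟨M', h1, h2, h3⟩ := exists_det M strict (h := n ^ 2) (by nlinarith) hS
    (by
      have : 2 ^ n ≤ 2 ^ (n ^ 2 + 1) := Nat.pow_le_pow_right (by omega) hn2
      omega) hcard
  refine ⟨M', h1, h2, h3.trans ?_⟩
  calc 2 ^ 12 * ((2 ^ (n ^ 2)) ^ 4 * S ^ 2) * (Nat.card A + 1)
      ≤ 2 ^ 12 * ((2 ^ (n ^ 2)) ^ 4 * S ^ 2) * 2 ^ n := Nat.mul_le_mul_left _ hA
    _ = 2 ^ (12 + n ^ 2 * 4 + n) * S ^ 2 := by
        rw [← pow_mul, pow_add, pow_add]; ring
    _ ≤ 2 ^ (6 * n ^ 2) * S ^ 2 := by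
        apply Nat.mul_le_mul_right
        apply Nat.pow_le_pow_right (by omega)
        nlinarith

end convert

end Pool.Agent.L0h67.LS
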