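import Mathlib
import Pool.Agent.L0h67.LS.Size

/-!
One-way nondeterministic automata: the subset construction, and determinization with a 1-limited
automaton.
-/

set_option autoImplicit false

namespace Pool.Agent.L0h67.LS

open Relation Cmd
open Pool.Agent.H630R2.LA (LimAut Sym fz Fr Cfg Step init initTape WS nr)
open Pool.Agent.Y527.LA (NeverRewrites OneWay)

section runs

variable {A : Type} {strict : Prop} {M : LimAut A}

/-- Reading the word `u` with moves to the right. -/
def lpG (strict : Prop) (M : LimAut A) : List A → M.Q → M.Q → Prop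
  | [], p, q => p = q
  | a :: u, p, q => ∃ r, fz strict M p (.sym (M.inp a)) r true ∧ lpG strict M u r q

theorem oneWay_run (hM : OneWay M) {f : M.Q} (w : List A) (u : List A) : ∀ (v : List A) (p : M.Q),
    w = v ++ u →
    (ReflTransGen (Fr strict M (initTape M w) (w.length + 1))
      (p, v.length + 1) (f, w.length + 2) ↔ ∃ q, lpG strict M u p q ∧ fz strict M q .rm f true) := by
  have hright : ∀ {p σ q d}, fz strict M p σ q d → d = true := by
    rintro p σ q d ⟨b, hb, _⟩
    exact hM _ _ _ hb
  induction u with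
  | nil =>
    intro v p hw
    rw [List.append_nil] at hw
    subst hw
    have hlast : initTape M w (w.length + 1) = .rm := by
      simp only [initTape, List.getElem?_eq_none (le_refl w.length)]
    constructor
    · intro h
      rcases ReflTransGen.cases_head h with h1 | ⟨c, ⟨_, d, h1, h2, h3⟩, h4⟩
      · have h1' : w.length + 1 = w.length + 2 := congrArg Prod.snd h1
        omega
      · have hd := hright h1
        subst hd
        have h5 := h2 rfl
        rcases ReflTransGen.cases_head h4 with h6 | ⟨c', ⟨h7, _⟩, _⟩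
        · rw [h6] at h1
          have h1' : fz strict M p (initTape M w (w.length + 1)) f true := h1
          rw [hlast] at h1'
          exact ⟨p, rfl, h1'⟩
        · have h5' : c.2 = w.length + 1 + 1 := h5
          omega
    · rintro ⟨q, h, hq⟩
      have h' : p = q := h
      subst h'
      refine ReflTransGen.single ⟨le_rfl, true, ?_, fun _ => rfl, fun h => absurd h (by simp)⟩
      show fz strict M p (initTape M w (w.length + 1)) f true
      rw [hlast]
      exact hq
  | cons a u ih =>
    intro v p hw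
    have hlen : w.length = v.length + (u.length + 1) := by
      rw [hw, List.length_append, List.length_cons]
    have hcell : initTape M w (v.length + 1) = .sym (M.inp a) := by
      have : w[v.length]? = some a := by
        rw [hw, List.getElem?_append_right le_rfl]
        simp
      simp only [initTape, this]
    have ih' := fun q => ih (v ++ [a]) q (by rw [hw]; simp)
    have hl : (v ++ [a]).length + 1 = v.length + 1 + 1 := by simp
    constructor
    · intro h
      rcases ReflTransGen.cases_head h with h1 | ⟨c, ⟨_, d, h1, h2, h3⟩, h4⟩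
      · have h1' : v.length + 1 = w.length + 2 := congrArg Prod.snd h1
        omega
      · have hd := hright h1
        subst hd
        have h5 := h2 rfl
        have h1' : fz strict M p (initTape M w (v.length + 1)) c.1 true := h1
        rw [hcell] at h1'
        have hc' : c = (c.1, (v ++ [a]).length + 1) := by
          rw [hl]
          exact Prod.ext rfl h5
        rw [hc'] at h4
        obtain ⟨q, hq, hf⟩ := (ih' _).1 h4
        exact ⟨q, ⟨c.1, h1', hq⟩, hf⟩
    · rintro ⟨q, ⟨r, hr, hq⟩, hf⟩
      have h4 := (ih' r).2 ⟨q, hq, hf⟩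
      refine h4.head ⟨?_, true, ?_, fun _ => hl, fun h => absurd h (by simp)⟩
      · show v.length + 1 ≤ w.length + 1
        omega
      · show fz strict M p (initTape M w (v.length + 1)) r true
        rw [hcell]
        exact hr

theorem oneWay_language (hM : OneWay M) (hN : NeverRewrites M) (w : List A) :
    w ∈ M.language strict ↔ ∃ q, lpG strict M w M.q0 q ∧ ∃ f ∈ M.F, fz strict M q .rm f true := by
  rw [mem_language_never hN]
  constructor
  · rintro ⟨f, hf, h⟩
    obtain ⟨q, h1, h2⟩ := (oneWay_run hM w w [] M.q0 rfl).1 h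
    exact ⟨q, h1, f, hf, h2⟩
  · rintro ⟨q, h1, f, hf, h2⟩
    exact ⟨f, hf, (oneWay_run hM w w [] M.q0 rfl).2 ⟨q, h1, h2⟩⟩

end runs

section subset

variable {A : Type} (strict : Prop) (M : LimAut A)

/-- The states reached from the states in `X` by reading `a`. -/
def post (X : Set M.Q) (a : A) : Set M.Q :=
  {q | ∃ p ∈ X, fz strict M p (.sym (M.inp a)) q true}

/-- The moves of the subset automaton. -/
inductive DT : Option (Set M.Q) → Sym (Option A) → Option (Set M.Q) → Option A → Bool → Prop
  | go (X : Set M.Q) (a : A) : DT (some X) (.sym (some a)) (some (post strict M X a)) (some a) true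
  | fin (X : Set M.Q) (h : ∃ p ∈ X, ∃ f ∈ M.F, fz strict M p .rm f true) :
      DT (some X) .rm none none true

/-- The subset automaton. -/
def dfa [Finite A] : LimAut A where
  Q := Option (Set M.Q)
  W := Option A
  finQ := by
    have := M.finQ
    infer_instance
  finW := inferInstance
  inp := some
  inp_inj := fun _ _ h => Option.some.inj h
  δ := fun q σ => {z | DT strict M q σ z.1 z.2.1 z.2.2}
  q0 := some {M.q0}
  F := {none}

variable [Finite A]

theorem dfa_oneWay : OneWay (dfa strict M) := by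
  intro q σ x hx
  have hx' : DT strict M q σ x.1 x.2.1 x.2.2 := hx
  generalize x.1 = x1 at hx'
  generalize x.2.1 = x2 at hx'
  generalize x.2.2 = x3 at hx'
  cases hx' <;> rfl

theorem dfa_never : NeverRewrites (dfa strict M) := by
  intro q σ x hx
  have hx' : DT strict M q σ x.1 x.2.1 x.2.2 := hx
  show Sym.rewrite σ x.2.1 = σ
  generalize x.1 = x1 at hx'
  generalize x.2.1 = x2 at hx' ⊢
  generalize x.2.2 = x3 at hx'
  cases hx' <;> rfl

theorem dfa_det : (dfa strict M).Deterministic := by
  rintro q σ ⟨x1, x2, x3⟩ hx ⟨y1, y2, y3⟩ hy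
  have hx' : DT strict M q σ x1 x2 x3 := hx
  have hy' : DT strict M q σ y1 y2 y3 := hy
  cases hx' <;> cases hy' <;> rfl

theorem dfa_card : Nat.card (dfa strict M).Q = 2 ^ Nat.card M.Q + 1 := by
  have := M.finQ
  show Nat.card (Option (Set M.Q)) = _
  rw [Finite.card_option]
  have : Nat.card (Set M.Q) = Nat.card (M.Q → Prop) := rfl
  rw [this, Nat.card_fun]
  simp

variable {strict M}

theorem fz_dfa_go {s' : Prop} {X : Set M.Q} {a : A} {y : Option (Set M.Q)} {d : Bool} :
    fz s' (dfa strict M) (some X) (.sym (some a)) y d ↔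
      y = some (post strict M X a) ∧ d = true := by
  constructor
  · rintro ⟨b, hb, _⟩
    have hb' : DT strict M (some X) (.sym (some a)) y b d := hb
    generalize hσ : (Sym.sym (some a) : Sym (Option A)) = σ at hb'
    cases hb' with
    | go _ a' =>
      cases hσ
      exact ⟨rfl, rfl⟩
    | fin _ h => exact absurd hσ (by simp)
  · rintro ⟨rfl, rfl⟩
    exact ⟨some a, DT.go X a, fun _ => rfl⟩

theorem fz_dfa_rm {s' : Prop} {X : Set M.Q} {y : Option (Set M.Q)} {d : Bool} :
    fz s' (dfa strict M) (some X) .rm y d ↔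
      y = none ∧ d = true ∧ ∃ p ∈ X, ∃ f ∈ M.F, fz strict M p .rm f true := by
  constructor
  · rintro ⟨b, hb, _⟩
    have hb' : DT strict M (some X) .rm y b d := hb
    cases hb' with
    | fin _ h => exact ⟨rfl, rfl, h⟩
  · rintro ⟨rfl, rfl, h⟩
    exact ⟨none, DT.fin X h, fun _ => rfl⟩

theorem lpG_dfa {s' : Prop} (u : List A) : ∀ (X : Set M.Q) (y : Option (Set M.Q)),
    lpG s' (dfa strict M) u (some X) y ↔ y = some (u.foldl (post strict M) X) := by
  induction u with
  | nil =>
    intro X y
    exact ⟨fun h => (show (some X : Option (Set M.Q)) = y from h).symm,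
      fun h => (show (some X : Option (Set M.Q)) = y from h.symm)⟩
  | cons a u ih =>
    intro X y
    constructor
    · rintro ⟨r, h1, h2⟩
      have h1' := (fz_dfa_go.1 h1).1
      subst h1'
      exact (ih _ _).1 h2
    · intro h
      exact ⟨some (post strict M X a), fz_dfa_go.2 ⟨rfl, rfl⟩, (ih _ _).2 h⟩

omit [Finite A] in
theorem mem_foldl (u : List A) : ∀ (X : Set M.Q) (q : M.Q),
    q ∈ u.foldl (post strict M) X ↔ ∃ p ∈ X, lpG strict M u p q := by
  induction u with
  | nil =>
    intro X q
    constructor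
    · intro h; exact ⟨q, h, rfl⟩
    · rintro ⟨p, hp, h⟩
      have h' : p = q := h
      rw [← h']; exact hp
  | cons a u ih =>
    intro X q
    rw [List.foldl_cons, ih]
    constructor
    · rintro ⟨r, ⟨p, hp, h1⟩, h2⟩
      exact ⟨p, hp, r, h1, h2⟩
    · rintro ⟨p, hp, r, h1, h2⟩
      exact ⟨r, ⟨p, hp, h1⟩, h2⟩

theorem dfa_language (hM : OneWay M) (hN : NeverRewrites M) (w : List A) :
    w ∈ (dfa strict M).language strict ↔ w ∈ M.language strict := by
  rw [oneWay_language (dfa_oneWay strict M) (dfa_never strict M), oneWay_language hM hN]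
  constructor
  · rintro ⟨q, h1, f, hf, h2⟩
    have h1' : q = some (w.foldl (post strict M) {M.q0}) := (lpG_dfa w _ _).1 h1
    subst h1'
    obtain ⟨_, _, p, hp, g, hg, h3⟩ := fz_dfa_rm.1 h2
    obtain ⟨r, hr, h4⟩ := (mem_foldl w _ _).1 hp
    have hr' : r = M.q0 := hr
    subst hr'
    exact ⟨p, h4, g, hg, h3⟩
  · rintro ⟨q, h1, f, hf, h2⟩
    refine ⟨some (w.foldl (post strict M) {M.q0}), (lpG_dfa w _ _).2 rfl, none, rfl, ?_⟩
    exact fz_dfa_rm.2 ⟨rfl, rfl, q, (mem_foldl w _ _).2 ⟨M.q0, rfl, h1⟩, f, hf, h2⟩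

end subset

/-- The subset construction. -/
theorem short_subset (strict : Prop) (N : ℕ) : Short strict N (2 ^ N + 1) := by
  intro A hA M h1 h2 h3 h4
  refine ⟨dfa strict M, dfa_det strict M, dfa_never strict M, ?_, fun w _ => dfa_language h1 h2 w⟩
  rw [dfa_card]
  have := Nat.pow_le_pow_right (n := 2) (by omega) h4
  omega

theorem Short.mono_left {strict : Prop} {N N' S : ℕ} (h : Short strict N S) (hN : N' ≤ N) :
    Short strict N' S := by
  intro A hA M h1 h2 h3 h4
  obtain ⟨M', h5, h6, h7, h8⟩ := h A hA M h1 h2 (h3.trans hN) (h4.trans hN)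
  exact ⟨M', h5, h6, h7, fun w hw => h8 w (hw.trans hN)⟩

theorem Short.mono_right {strict : Prop} {N S S' : ℕ} (h : Short strict N S) (hS : S ≤ S') :
    Short strict N S' := by
  intro A hA M h1 h2 h3 h4
  obtain ⟨M', h5, h6, h7, h8⟩ := h A hA M h1 h2 h3 h4
  exact ⟨M', h5, h6, h7.trans hS, h8⟩

section oneway

variable {A : Type} {B : ℕ} {h : ℕ}

theorem lp_append (rel : A → Fin B → Fin B → Bool) (u : List A) (a : A) : ∀ p q : Fin B,
    lp rel (u ++ [a]) p q ↔ ∃ r, lp rel u p r ∧ rel a r q = true := by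
  induction u with
  | nil =>
    intro p q
    constructor
    · rintro ⟨r, h1, h2⟩
      have h2' : r = q := h2
      subst h2'
      exact ⟨p, rfl, h1⟩
    · rintro ⟨r, h1, h2⟩
      have h1' : p = r := h1
      subst h1'
      exact ⟨q, h2, rfl⟩
  | cons b u ih =>
    intro p q
    constructor
    · rintro ⟨r, h1, h2⟩
      obtain ⟨s, h3, h4⟩ := (ih r q).1 h2
      exact ⟨s, ⟨r, h1, h3⟩, h4⟩
    · rintro ⟨s, ⟨r, h1, h3⟩, h4⟩
      exact ⟨r, h1, (ih r q).2 ⟨s, h3, h4⟩⟩

theorem nr_iff_lp {rel : A → Fin (2 ^ h) → Fin (2 ^ h) → Bool} {p0 : Fin (2 ^ h)} (w : List A)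
    (t : ℕ) (ht : t ≤ w.length) : ∀ q, nr h rel p0 w t q ↔ lp rel (w.take t) p0 q := by
  induction t with
  | zero =>
    intro q
    constructor
    · intro h
      have h' : q = p0 := h
      subst h'
      exact rfl
    · intro h
      have h' : p0 = q := h
      exact h'.symm
  | succ t ih =>
    intro q
    have hwt : w[t]? = some w[t] := List.getElem?_eq_getElem (by omega)
    have htake : w.take (t + 1) = w.take t ++ [w[t]] := by
      rw [List.take_succ_eq_append_getElem (by omega)]
    rw [htake, lp_append]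
    constructor
    · rintro ⟨p, hp, a, ha, hr⟩
      rw [hwt] at ha
      cases ha
      exact ⟨p, (ih (by omega) p).1 hp, hr⟩
    · rintro ⟨p, hp, hr⟩
      exact ⟨p, (ih (by omega) p).2 hp, w[t], hwt, hr⟩

open Classical in
/-- One-way automata have deterministic 1-limited automata whose size is polynomial in the number
of states and in the cost for short inputs. -/
theorem oneWay_det [Finite A] {strict : Prop} (M : LimAut A) (hM : OneWay M)
    (hN : NeverRewrites M) {N S : ℕ} (h1 : Nat.card A ≤ N) (h2 : Nat.card M.Q ≤ N)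
    (hS : Short strict (4 * N) S) :
    ∃ M' : LimAut A, M'.Deterministic ∧ M'.language strict = M.language strict ∧
      M'.size ≤ 2 ^ 17 * N ^ 5 * S ^ 2 := by
  have := M.finQ
  have hN1 : 1 ≤ N := (size_pos M).2.2.trans h2
  obtain ⟨h, hh, hNh, hhN⟩ : ∃ h, 1 ≤ h ∧ N ≤ 2 ^ h ∧ 2 ^ h ≤ 2 * N := by
    rcases Nat.lt_or_ge N 2 with h3 | h3
    · exact ⟨1, le_rfl, by omega, by omega⟩
    · refine ⟨Nat.clog 2 N, Nat.clog_pos (by omega) h3, Nat.le_pow_clog (by omega) N, ?_⟩
      have h4 := Nat.pow_pred_clog_lt_self (b := 2) (by omega) (x := N) (by omega)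
      have h5 : 0 < Nat.clog 2 N := Nat.clog_pos (by omega) h3
      obtain ⟨c, hc⟩ : ∃ c, Nat.clog 2 N = c + 1 := ⟨Nat.clog 2 N - 1, by omega⟩
      rw [hc] at h4 ⊢
      have h6 : (c + 1).pred = c := rfl
      rw [h6] at h4
      rw [pow_succ]
      omega
  obtain ⟨e⟩ : Nonempty (M.Q ↪ Fin (2 ^ h)) := by
    have e1 := Finite.equivFin M.Q
    exact ⟨e1.toEmbedding.trans (Fin.castLEEmb (h2.trans hNh))⟩
  let rel : A → Fin (2 ^ h) → Fin (2 ^ h) → Bool := fun a i j =>
    decide (∃ x y, e x = i ∧ e y = j ∧ fz strict M x (.sym (M.inp a)) y true)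
  let p0 : Fin (2 ^ h) := e M.q0
  let facc : Fin (2 ^ h) → Bool := fun i =>
    decide (∃ x, e x = i ∧ ∃ f ∈ M.F, fz strict M x .rm f true)
  have hp : 2 ^ (h + 1) = 2 * 2 ^ h := by ring
  have hN4 : 2 ^ (h + 1) ≤ 4 * N := by omega
  obtain ⟨M', h3, h4, h5⟩ := exists_rel (strict := strict) hh (hS.mono_left hN4) (by omega)
    rel p0 facc
  refine ⟨M', h3, ?_, h5.trans ?_⟩
  · ext w
    rw [h4, oneWay_language hM hN]
    have key : ∀ (u : List A) (x : M.Q) (j : Fin (2 ^ h)), lp rel u (e x) j ↔
        ∃ y, e y = j ∧ lpG strict M u x y := by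
      intro u
      induction u with
      | nil =>
        intro x j
        constructor
        · intro h
          exact ⟨x, h, rfl⟩
        · rintro ⟨y, hy, h⟩
          have h' : x = y := h
          rw [h', ← hy]
          rfl
      | cons a u ih =>
        intro x j
        constructor
        · rintro ⟨r, h6, h7⟩
          obtain ⟨x', z, hx', hz, h8⟩ := of_decide_eq_true h6
          have : x' = x := e.injective hx'
          subst this
          rw [← hz] at h7
          obtain ⟨y, hy, h9⟩ := (ih z j).1 h7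
          exact ⟨y, hy, z, h8, h9⟩
        · rintro ⟨y, hy, z, h8, h9⟩
          exact ⟨e z, decide_eq_true ⟨x, z, rfl, rfl, h8⟩, (ih z j).2 ⟨y, hy, h9⟩⟩
    have hfull : w.take w.length = w := List.take_length
    constructor
    · rintro ⟨j, hj, h6⟩
      rw [nr_iff_lp w w.length le_rfl, hfull] at h6
      obtain ⟨y, hy, h7⟩ := (key w M.q0 j).1 h6
      obtain ⟨x, hx, f, hf, h8⟩ := of_decide_eq_true hj
      have : x = y := e.injective (by rw [hx, hy])
      subst this
      exact ⟨x, h7, f, hf, h8⟩
    · rintro ⟨q, h6, f, hf, h7⟩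
      refine ⟨e q, decide_eq_true ⟨q, rfl, f, hf, h7⟩, ?_⟩
      rw [nr_iff_lp w w.length le_rfl, hfull]
      exact (key w M.q0 (e q)).2 ⟨q, rfl, h6⟩
  · have h6 : (2 ^ h) ^ 4 ≤ (2 * N) ^ 4 := Nat.pow_le_pow_left hhN 4
    calc 2 ^ 12 * ((2 ^ h) ^ 4 * S ^ 2) * (Nat.card A + 1)
        ≤ 2 ^ 12 * ((2 * N) ^ 4 * S ^ 2) * (2 * N) := by
          apply Nat.mul_le_mul
          · exact Nat.mul_le_mul_left _ (Nat.mul_le_mul_right _ h6)
          · omega
      _ = 2 ^ 17 * N ^ 5 * S ^ 2 := by ring

end oneway

end Pool.Agent.L0h67.LS
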